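import Pool.Agent.Lib_MP_592c03_gt.Count

/-!
# Asymptotics of the coefficients
-/

set_option autoImplicit false

namespace Pool.Agent.MP_592c03_gt

open Finset Filter Topology

theorem sub_div_tendsto {a : ℕ → ℕ} {s : ℕ → ℝ} (hs : Tendsto s atTop atTop) {α : ℝ}
    (ha : Tendsto (fun m => (a m : ℝ) / s m) atTop (𝓝 α)) (l : ℕ) :
    Tendsto (fun m => ((a m - l : ℕ) : ℝ) / s m) atTop (𝓝 α) := by
  have h0 : Tendsto (fun m => (l : ℝ) / s m) atTop (𝓝 0) := hs.const_div_atTop _
  have h1 : Tendsto (fun m => (a m : ℝ) / s m - (l : ℝ) / s m) atTop (𝓝 α) := by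
    simpa using ha.sub h0
  refine tendsto_of_tendsto_of_tendsto_of_le_of_le' h1 ha ?_ ?_
  · filter_upwards [hs.eventually_gt_atTop 0] with m hm
    rw [← sub_div]
    refine div_le_div_of_nonneg_right ?_ hm.le
    rw [sub_le_iff_le_add]
    exact_mod_cast (by omega : a m ≤ a m - l + l)
  · filter_upwards [hs.eventually_gt_atTop 0] with m hm
    refine div_le_div_of_nonneg_right ?_ hm.le
    exact_mod_cast Nat.sub_le _ _

theorem choose_div_tendsto {a : ℕ → ℕ} {s : ℕ → ℝ} (hs : Tendsto s atTop atTop) {α : ℝ}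
    (ha : Tendsto (fun m => (a m : ℝ) / s m) atTop (𝓝 α)) (i : ℕ) :
    Tendsto (fun m => ((a m).choose i : ℝ) / s m ^ i) atTop (𝓝 (α ^ i / i.factorial)) := by
  have h1 : ∀ m, ((a m).choose i : ℝ) / s m ^ i =
      (∏ l ∈ range i, ((a m - l : ℕ) : ℝ) / s m) / i.factorial := by
    intro m
    have h2 : ((a m).descFactorial i : ℝ) = i.factorial * (a m).choose i := by
      exact_mod_cast Nat.descFactorial_eq_factorial_mul_choose (a m) i
    have h3 : ((a m).descFactorial i : ℝ) = ∏ l ∈ range i, ((a m - l : ℕ) : ℝ) := by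
      rw [Nat.descFactorial_eq_prod_range]; push_cast; rfl
    have h4 : (i.factorial : ℝ) ≠ 0 := by positivity
    rw [Finset.prod_div_distrib, Finset.prod_const, Finset.card_range, ← h3, h2]
    field_simp
  simp only [h1]
  refine Tendsto.div_const ?_ _
  have := tendsto_finsetProd (range i) (fun l _ => sub_div_tendsto hs ha l)
  simpa using this

/-- a lower power is negligible -/
theorem choose_div_tendsto_zero {a : ℕ → ℕ} {s : ℕ → ℝ} (hs : Tendsto s atTop atTop) {α : ℝ}
    (ha : Tendsto (fun m => (a m : ℝ) / s m) atTop (𝓝 α)) (i j : ℕ) (hij : i < j) :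
    Tendsto (fun m => ((a m).choose i : ℝ) / s m ^ j) atTop (𝓝 0) := by
  have h1 := choose_div_tendsto hs ha i
  have h2 : Tendsto (fun m => (s m ^ (j - i))⁻¹) atTop (𝓝 0) :=
    tendsto_inv_atTop_zero.comp ((tendsto_pow_atTop (by omega)).comp hs)
  have h3 := h1.mul h2
  rw [mul_zero] at h3
  refine h3.congr fun m => ?_
  have : s m ^ j = s m ^ i * s m ^ (j - i) := by rw [← pow_add]; congr 1; omega
  rw [this, div_mul_eq_div_mul_one_div, one_div, div_eq_mul_inv]

section

variable {E : ℕ → Type} [∀ m, Fintype (E m)] [∀ m, DecidableEq (E m)] (D : ∀ m, Data (E m))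
  {s : ℕ → ℝ} (hs : Tendsto s atTop atTop) {ν κ : ℝ} {Q : ℕ}
  (hN : Tendsto (fun m => (Fintype.card (E m) : ℝ) / s m) atTop (𝓝 ν))
  (hc : Tendsto (fun m => ((D m).c ∅ : ℝ) / s m) atTop (𝓝 κ)) (hQ : ∀ m, (D m).Q = Q)

include hs hN hQ in
theorem g_tendsto (j : ℕ) :
    Tendsto (fun m => ((D m).g j : ℝ) / s m ^ j) atTop (𝓝 (ν ^ j / j.factorial)) := by
  have h1 := choose_div_tendsto hs hN j
  have h2 : Tendsto (fun m => ((Fintype.card (E m)).choose j : ℝ) / s m ^ j -
      ∑ i ∈ range j, ((Fintype.card (E m)).choose i : ℝ) / s m ^ j * 2 ^ (Q * i)) atTop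
      (𝓝 (ν ^ j / j.factorial - ∑ i ∈ range j, 0 * 2 ^ (Q * i))) := by
    refine h1.sub (tendsto_finsetSum _ fun i hi => ?_)
    exact (choose_div_tendsto_zero hs hN i j (Finset.mem_range.1 hi)).mul_const _
  simp only [zero_mul, Finset.sum_const_zero, sub_zero] at h2
  refine tendsto_of_tendsto_of_tendsto_of_le_of_le' h2 h1 ?_ ?_
  · filter_upwards [hs.eventually_gt_atTop 0] with m hm
    have h3 : ((Fintype.card (E m)).choose j : ℝ) ≤ (D m).g j +
        ∑ i ∈ range j, ((Fintype.card (E m)).choose i : ℝ) * 2 ^ (Q * i) := by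
      have := (D m).le_g j
      rw [hQ m] at this
      exact_mod_cast this
    have h4 : ∑ i ∈ range j, ((Fintype.card (E m)).choose i : ℝ) / s m ^ j * 2 ^ (Q * i) =
        (∑ i ∈ range j, ((Fintype.card (E m)).choose i : ℝ) * 2 ^ (Q * i)) / s m ^ j := by
      rw [Finset.sum_div]
      refine Finset.sum_congr rfl fun i _ => by ring
    rw [h4, ← sub_div]
    refine div_le_div_of_nonneg_right ?_ (by positivity)
    linarith
  · filter_upwards [hs.eventually_gt_atTop 0] with m hm
    refine div_le_div_of_nonneg_right ?_ (by positivity)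
    exact_mod_cast (D m).g_le j

include hs hN hc hQ in
theorem K_tendsto (hκ : 0 < κ) (k : ℕ) :
    Tendsto (fun m => (((D m).K (2 * (D m).c ∅ - 2 - 4 * k)).natAbs : ℝ) / s m ^ k) atTop
      (𝓝 (|κ - ν| ^ k / k.factorial)) := by
  have hc1 : ∀ l, Tendsto (fun m => (((D m).c ∅ - 1 - l : ℕ) : ℝ) / s m) atTop (𝓝 κ) := by
    intro l
    simp only [Nat.sub_sub]
    exact sub_div_tendsto hs hc (1 + l)
  -- the main term
  have hmain : Tendsto (fun m => (∑ j ∈ range (k + 1), (-1) ^ j * ((D m).g j : ℝ) *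
      (((D m).c ∅ - 1 - j).choose (k - j) : ℝ)) / s m ^ k) atTop
      (𝓝 ((κ - ν) ^ k / k.factorial)) := by
    have h1 : Tendsto (fun m => ∑ j ∈ range (k + 1), (-1) ^ j * ((((D m).g j : ℝ) / s m ^ j) *
        ((((D m).c ∅ - 1 - j).choose (k - j) : ℝ) / s m ^ (k - j)))) atTop
        (𝓝 (∑ j ∈ range (k + 1), (-1) ^ j * ((ν ^ j / j.factorial) *
          (κ ^ (k - j) / (k - j).factorial)))) := by
      refine tendsto_finsetSum _ fun j _ => ?_
      exact ((g_tendsto D hs hN hQ j).mul (choose_div_tendsto hs (hc1 j) (k - j))).const_mul _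
    have h2 : ∑ j ∈ range (k + 1), (-1 : ℝ) ^ j * ((ν ^ j / j.factorial) *
          (κ ^ (k - j) / (k - j).factorial)) = (κ - ν) ^ k / k.factorial := by
      have h3 : κ - ν = -ν + κ := by ring
      rw [h3, add_pow, Finset.sum_div]
      refine Finset.sum_congr rfl fun j hj => ?_
      have hj' : j ≤ k := by rw [Finset.mem_range] at hj; omega
      have h4 : (k.choose j : ℝ) * (j.factorial * (k - j).factorial) = k.factorial := by
        have := Nat.choose_mul_factorial_mul_factorial hj'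
        rw [mul_assoc] at this
        exact_mod_cast this
      have h5 : (j.factorial : ℝ) ≠ 0 := by positivity
      have h6 : ((k - j).factorial : ℝ) ≠ 0 := by positivity
      have h7 : (k.factorial : ℝ) ≠ 0 := by positivity
      rw [neg_pow ν, ← h4]
      have h8 : (k.choose j : ℝ) ≠ 0 := by
        intro h
        rw [h, zero_mul] at h4
        exact h7 h4.symm
      field_simp
    rw [h2] at h1
    refine h1.congr' ?_
    filter_upwards [hs.eventually_gt_atTop 0] with m hm
    rw [Finset.sum_div]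
    refine Finset.sum_congr rfl fun j hj => ?_
    have hj' : j ≤ k := by rw [Finset.mem_range] at hj; omega
    have h3 : s m ^ k = s m ^ j * s m ^ (k - j) := by rw [← pow_add]; congr 1; omega
    rw [h3]
    have := hm.ne'
    field_simp
  -- the error term
  have herr : Tendsto (fun m => (∑ j ∈ range k, ((Fintype.card (E m)).choose j : ℝ) *
      (2 ^ (Q * j) * ((D m).c ∅ + Q * k : ℝ) ^ (k - 1 - j))) / s m ^ k) atTop (𝓝 0) := by
    have h1 : Tendsto (fun m => ∑ j ∈ range k, (2 : ℝ) ^ (Q * j) *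
        ((((Fintype.card (E m)).choose j : ℝ) / s m ^ (j + 1)) *
        (((D m).c ∅ + Q * k : ℝ) / s m) ^ (k - 1 - j))) atTop
        (𝓝 (∑ j ∈ range k, (2 : ℝ) ^ (Q * j) * (0 * κ ^ (k - 1 - j)))) := by
      refine tendsto_finsetSum _ fun j _ => ?_
      refine Tendsto.const_mul _ ?_
      refine (choose_div_tendsto_zero hs hN j (j + 1) (Nat.lt_succ_self j)).mul ?_
      refine Tendsto.pow ?_ _
      have h2 : Tendsto (fun m => (Q * k : ℝ) / s m) atTop (𝓝 0) := hs.const_div_atTop _
      have h3 := hc.add h2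
      rw [add_zero] at h3
      exact h3.congr fun m => by rw [add_div]
    simp only [zero_mul, mul_zero, Finset.sum_const_zero] at h1
    refine h1.congr' ?_
    filter_upwards [hs.eventually_gt_atTop 0] with m hm
    rw [Finset.sum_div]
    refine Finset.sum_congr rfl fun j hj => ?_
    rw [Finset.mem_range] at hj
    have h3 : s m ^ k = s m ^ (j + 1) * s m ^ (k - 1 - j) := by rw [← pow_add]; congr 1; omega
    rw [h3, div_pow]
    have := hm.ne'
    field_simp
  -- combine
  have hK : Tendsto (fun m => ((-1) ^ ((D m).c ∅ - 1) *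
      ((D m).K (2 * (D m).c ∅ - 2 - 4 * k) : ℝ)) / s m ^ k) atTop
      (𝓝 ((κ - ν) ^ k / k.factorial)) := by
    have h0 : Tendsto (fun m => ((-1) ^ ((D m).c ∅ - 1) *
      ((D m).K (2 * (D m).c ∅ - 2 - 4 * k) : ℝ)) / s m ^ k - (∑ j ∈ range (k + 1), (-1) ^ j *
        ((D m).g j : ℝ) * (((D m).c ∅ - 1 - j).choose (k - j) : ℝ)) / s m ^ k) atTop (𝓝 0) := by
      refine squeeze_zero_norm' ?_ herr
      have hev : ∀ᶠ m in atTop, k + 1 ≤ (D m).c ∅ := by
        have h1 : Tendsto (fun m => ((D m).c ∅ : ℝ) / s m * s m) atTop atTop :=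
          hc.pos_mul_atTop hκ hs
        filter_upwards [h1.eventually_ge_atTop ((k : ℝ) + 1), hs.eventually_gt_atTop 0] with m h2 h3
        rw [div_mul_cancel₀ _ h3.ne'] at h2
        exact_mod_cast h2
      filter_upwards [hs.eventually_gt_atTop 0, hev] with m hm hm2
      have h1 := (D m).K_estimate k hm2
      rw [hQ m] at h1
      rw [← sub_div, norm_div, Real.norm_eq_abs, Real.norm_eq_abs, abs_of_pos (pow_pos hm k)]
      refine div_le_div_of_nonneg_right ?_ (pow_pos hm k).le
      have h2 : (((-1) ^ ((D m).c ∅ - 1) * (D m).K (2 * (D m).c ∅ - 2 - 4 * k) -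
          ∑ j ∈ range (k + 1), (-1) ^ j * ((D m).g j : ℤ) *
            (((D m).c ∅ - 1 - j).choose (k - j) : ℤ)).natAbs : ℝ) ≤
          ((∑ j ∈ range k, (Fintype.card (E m)).choose j *
            (2 ^ (Q * j) * ((D m).c ∅ + Q * k) ^ (k - 1 - j)) : ℕ) : ℝ) := by
        exact_mod_cast h1
      rw [Nat.cast_natAbs] at h2
      push_cast at h2
      exact h2
    have h1 := h0.add hmain
    rw [zero_add] at h1
    exact h1.congr fun m => by ring
  have h1 := hK.abs
  rw [abs_div, abs_pow, Nat.abs_cast] at h1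
  refine h1.congr' ?_
  filter_upwards [hs.eventually_gt_atTop 0] with m hm
  rw [abs_div, abs_mul, abs_pow, abs_neg, abs_one, one_pow, one_mul, abs_of_pos (pow_pos hm k),
    Nat.cast_natAbs, Int.cast_abs]

end

end Pool.Agent.MP_592c03_gt
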