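import Mathlib

/-!
# The abstract counting argument
-/

set_option autoImplicit false

namespace Pool.Agent.MP_592c03_gt

open Finset LaurentPolynomial

/-- the coefficient of `A^e` in `(-A²-A⁻²)^M` -/
noncomputable def dc (M : ℕ) (e : ℤ) : ℤ := ((-T 2 - T (-2)) ^ M : ℤ[T;T⁻¹]).coeff e

theorem delta_pow (M : ℕ) : ((-T 2 - T (-2)) ^ M : ℤ[T;T⁻¹]) =
    ∑ i ∈ range (M + 1), C ((-1) ^ M * (M.choose i : ℤ)) * T (2 * M - 4 * i) := by
  have h1 : (-T 2 - T (-2) : ℤ[T;T⁻¹]) = C (-1) * (T (-2) + T 2) := by
    rw [map_neg, map_one]; ring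
  rw [h1, mul_pow, add_pow, Finset.mul_sum]
  refine Finset.sum_congr rfl fun i hi => ?_
  have hi' : i ≤ M := Nat.lt_succ_iff.1 (Finset.mem_range.1 hi)
  have h2 : (T (-2) : ℤ[T;T⁻¹]) ^ i * T 2 ^ (M - i) = T (2 * M - 4 * i) := by
    rw [T_pow, T_pow, ← T_add]
    congr 1
    push_cast [Nat.cast_sub hi']
    ring
  rw [h2, ← map_pow, map_mul, map_natCast]
  ring

theorem dc_eq (M : ℕ) (e : ℤ) : dc M e =
    ∑ i ∈ range (M + 1), if 2 * (M : ℤ) - 4 * i = e then (-1) ^ M * (M.choose i : ℤ) else 0 := by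
  rw [dc, delta_pow, AddMonoidAlgebra.coeff_sum, Finset.sum_apply']
  refine Finset.sum_congr rfl fun i _ => ?_
  rw [← single_eq_C_mul_T, AddMonoidAlgebra.coeff_single, Finsupp.single_apply]

theorem dc_sub (M i : ℕ) : dc M (2 * M - 4 * i) = (-1) ^ M * (M.choose i : ℤ) := by
  rw [dc_eq]
  by_cases hi : i ≤ M
  · rw [Finset.sum_eq_single i]
    · simp
    · intro j _ hj
      rw [if_neg]
      intro h
      apply hj
      have : (j : ℤ) = i := by linarith
      exact_mod_cast this
    · intro h
      exact absurd (Finset.mem_range.2 (by omega)) h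
  · rw [Finset.sum_eq_zero, Nat.choose_eq_zero_of_lt (by omega)]
    · simp
    · intro j hj
      rw [if_neg]
      intro h
      have : (j : ℤ) = i := by linarith
      have : j = i := by exact_mod_cast this
      rw [Finset.mem_range] at hj
      omega

theorem dc_eq_zero (M : ℕ) (e : ℤ) (h : 2 * (M : ℤ) < e) : dc M e = 0 := by
  rw [dc_eq]
  refine Finset.sum_eq_zero fun i _ => ?_
  rw [if_neg]
  intro h'
  have : (0 : ℤ) ≤ i := by positivity
  linarith

theorem dc_neg (M : ℕ) (e : ℤ) : dc M (-e) = dc M e := by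
  have h1 : invert ((-T 2 - T (-2)) ^ M : ℤ[T;T⁻¹]) = (-T 2 - T (-2)) ^ M := by
    rw [map_pow]
    congr 1
    rw [map_sub, map_neg, invert_T, invert_T, neg_neg]
    ring
  rw [dc, ← invert_apply, h1, dc]

/-- if the coefficient is not zero, then it is a binomial coefficient -/
theorem natAbs_dc_le (M : ℕ) (e : ℤ) (b p : ℕ) (hb : M ≤ b) (hb1 : 1 ≤ b)
    (he : 2 * (M : ℤ) - 4 * p ≤ e) : (dc M e).natAbs ≤ b ^ p := by
  by_cases h : ∃ i : ℕ, 2 * (M : ℤ) - 4 * i = e
  · obtain ⟨i, rfl⟩ := h
    rw [dc_sub, Int.natAbs_mul, Int.natAbs_pow]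
    simp only [Int.reduceNeg, Int.natAbs_neg, Int.natAbs_one, one_pow, one_mul, Int.natAbs_natCast]
    have hi : i ≤ p := by
      have : (i : ℤ) ≤ p := by linarith
      exact_mod_cast this
    calc M.choose i ≤ M ^ i := Nat.choose_le_pow M i
      _ ≤ b ^ i := Nat.pow_le_pow_left hb i
      _ ≤ b ^ p := Nat.pow_le_pow_right hb1 hi
  · push Not at h
    rw [dc_eq, Finset.sum_eq_zero]
    · simp
    · intro i _
      rw [if_neg (h i)]

/-- The combinatorial data of a diagram with a reference state: `c B` is the number of loops of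
the state obtained from the reference state by flipping the crossings in `B`. -/
structure Data (E : Type) [Fintype E] [DecidableEq E] where
  c : Finset E → ℕ
  near : E → E → Prop
  Q : ℕ
  pos : ∀ B, 1 ≤ c B
  lip : ∀ B e, e ∉ B → c (insert e B) ≤ c B + 1 ∧ c B ≤ c (insert e B) + 1
  near_refl : ∀ e, near e e
  near_symm : ∀ e f, near e f → near f e
  card_near : ∀ f, Nat.card {e // near e f} ≤ Q
  merge : ∀ F : Finset E, (∀ e ∈ F, ∀ f ∈ F, e ≠ f → ¬ near e f) → ∀ e, e ∉ F →
    c (insert e F) + F.card + 1 = c ∅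

namespace Data

variable {E : Type} [Fintype E] [DecidableEq E] (D : Data E)

/-- pairwise far apart -/
def Generic (F : Finset E) : Prop := ∀ e ∈ F, ∀ f ∈ F, e ≠ f → ¬ D.near e f

theorem generic_empty : D.Generic ∅ := by
  intro e he
  simp at he

theorem generic_mono {F G : Finset E} (h : F ⊆ G) (hG : D.Generic G) : D.Generic F :=
  fun e he f hf => hG e (h he) f (h hf)

theorem c_union_le (B : Finset E) (G : Finset E) (h : Disjoint B G) :
    D.c (B ∪ G) ≤ D.c B + G.card ∧ D.c B ≤ D.c (B ∪ G) + G.card := by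
  induction G using Finset.induction_on with
  | empty => simp
  | insert e G he ih =>
    rw [Finset.disjoint_insert_right] at h
    obtain ⟨ih1, ih2⟩ := ih h.2
    have h1 : e ∉ B ∪ G := by simp [h.1, he]
    have h2 := D.lip (B ∪ G) e h1
    rw [Finset.card_insert_of_notMem he, Finset.union_insert]
    omega

theorem c_le (F B : Finset E) (h : F ⊆ B) : D.c B + F.card ≤ D.c F + B.card := by
  have := (D.c_union_le F (B \ F) Finset.disjoint_sdiff).1
  rw [Finset.union_sdiff_of_subset h, Finset.card_sdiff_of_subset h] at this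
  have := Finset.card_le_card h
  omega

theorem c_generic (F : Finset E) (hF : D.Generic F) : D.c F + F.card = D.c ∅ := by
  rcases F.eq_empty_or_nonempty with rfl | ⟨e, he⟩
  · simp
  · have h1 := D.merge (F.erase e) (D.generic_mono (Finset.erase_subset _ _) hF) e
      (Finset.notMem_erase _ _)
    rw [Finset.insert_erase he, Finset.card_erase_of_mem he] at h1
    have : 0 < F.card := Finset.card_pos.2 ⟨e, he⟩
    omega

/-- a maximal generic subset -/
theorem exists_max (B : Finset E) : ∃ F, F ⊆ B ∧ D.Generic F ∧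
    ∀ e ∈ B, e ∉ F → ∃ f ∈ F, D.near e f := by
  classical
  obtain ⟨F, hF, hmax⟩ := Finset.exists_max_image (B.powerset.filter D.Generic) Finset.card
    ⟨∅, by simp [D.generic_empty]⟩
  rw [Finset.mem_filter, Finset.mem_powerset] at hF
  refine ⟨F, hF.1, hF.2, fun e he heF => ?_⟩
  by_contra hcon
  push Not at hcon
  have h1 : D.Generic (insert e F) := by
    intro a ha b hb hab
    rw [Finset.mem_insert] at ha hb
    rcases ha with rfl | ha <;> rcases hb with rfl | hb
    · exact absurd rfl hab
    · exact hcon b hb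
    · exact fun h => hcon a ha (D.near_symm _ _ h)
    · exact hF.2 a ha b hb hab
  have h2 := hmax (insert e F) (by
    rw [Finset.mem_filter, Finset.mem_powerset]
    exact ⟨Finset.insert_subset he hF.1, h1⟩)
  rw [Finset.card_insert_of_notMem heF] at h2
  omega

/-- the chosen maximal generic subset -/
noncomputable def mx (B : Finset E) : Finset E := (D.exists_max B).choose

theorem mx_subset (B : Finset E) : D.mx B ⊆ B := (D.exists_max B).choose_spec.1

theorem mx_generic (B : Finset E) : D.Generic (D.mx B) := (D.exists_max B).choose_spec.2.1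

theorem mx_max (B : Finset E) : ∀ e ∈ B, e ∉ D.mx B → ∃ f ∈ D.mx B, D.near e f :=
  (D.exists_max B).choose_spec.2.2

theorem mx_lt (B : Finset E) (hB : ¬ D.Generic B) :
    D.c B + 2 * (D.mx B).card + 2 ≤ D.c ∅ + B.card := by
  have hne : D.mx B ≠ B := fun h => hB (h ▸ D.mx_generic B)
  obtain ⟨e, heB, he⟩ : ∃ e ∈ B, e ∉ D.mx B := by
    by_contra hcon
    push Not at hcon
    exact hne (Finset.Subset.antisymm (D.mx_subset B) hcon)
  have h1 := D.merge (D.mx B) (D.mx_generic B) e he
  have h2 := D.c_le (insert e (D.mx B)) B (Finset.insert_subset heB (D.mx_subset B))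
  rw [Finset.card_insert_of_notMem he] at h2
  omega

open Classical in
/-- the elements near to `F` -/
noncomputable def nbhd (F : Finset E) : Finset E := Finset.univ.filter fun e => ∃ f ∈ F, D.near e f

theorem card_nbhd (F : Finset E) : (D.nbhd F).card ≤ D.Q * F.card := by
  classical
  have h1 : D.nbhd F ⊆ F.biUnion fun f => Finset.univ.filter fun e => D.near e f := by
    intro e he
    simp only [nbhd, Finset.mem_filter, Finset.mem_univ, true_and] at he
    obtain ⟨f, hf, hef⟩ := he
    simp only [Finset.mem_biUnion, Finset.mem_filter, Finset.mem_univ, true_and]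
    exact ⟨f, hf, hef⟩
  refine (Finset.card_le_card h1).trans (Finset.card_biUnion_le.trans ?_)
  rw [mul_comm]
  refine (Finset.sum_le_card_nsmul _ _ D.Q fun f _ => ?_).trans (le_of_eq (by simp))
  have := D.card_near f
  rwa [Nat.card_eq_fintype_card, Fintype.card_subtype] at this

theorem subset_nbhd (B : Finset E) : B ⊆ D.nbhd (D.mx B) := by
  intro e he
  simp only [nbhd, Finset.mem_filter, Finset.mem_univ, true_and]
  by_cases h : e ∈ D.mx B
  · exact ⟨e, h, D.near_refl e⟩
  · exact D.mx_max B e he h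

theorem card_le (B : Finset E) : B.card ≤ D.Q * (D.mx B).card :=
  (Finset.card_le_card (D.subset_nbhd B)).trans (D.card_nbhd _)

open Classical in
/-- the non-generic sets -/
noncomputable def bad : Finset (Finset E) := Finset.univ.filter fun B => ¬ D.Generic B

/-- the sum over non-generic sets, estimated by the sum over maximal generic subsets -/
theorem sum_bad_le (t : Finset E → ℕ) (τ : ℕ → ℕ)
    (h : ∀ B, ¬ D.Generic B → t B ≤ τ (D.mx B).card) :
    ∑ B ∈ D.bad, t B ≤
      ∑ j ∈ range (Fintype.card E + 1), (Fintype.card E).choose j * (2 ^ (D.Q * j) * τ j) := by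
  classical
  calc ∑ B ∈ D.bad, t B = ∑ F : Finset E, ∑ B ∈ D.bad with D.mx B = F, t B :=
        (Finset.sum_fiberwise _ _ _).symm
    _ ≤ ∑ F : Finset E, 2 ^ (D.Q * F.card) * τ F.card := by
        refine Finset.sum_le_sum fun F _ => ?_
        refine (Finset.sum_le_card_nsmul _ _ (τ F.card) fun B hB => ?_).trans ?_
        · rw [Finset.mem_filter, bad, Finset.mem_filter] at hB
          rw [← hB.2]
          exact h B hB.1.2
        · rw [smul_eq_mul]
          refine Nat.mul_le_mul_right _ ?_
          have h1 : (D.bad.filter fun B => D.mx B = F) ⊆ (D.nbhd F).powerset := by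
            intro B hB
            rw [Finset.mem_filter] at hB
            rw [Finset.mem_powerset, ← hB.2]
            exact D.subset_nbhd B
          refine (Finset.card_le_card h1).trans ?_
          rw [Finset.card_powerset]
          exact Nat.pow_le_pow_right (by norm_num) (D.card_nbhd F)
    _ = ∑ F ∈ (Finset.univ : Finset E).powerset, 2 ^ (D.Q * F.card) * τ F.card := by
        rw [Finset.powerset_univ]
    _ = _ := by
        rw [Finset.sum_powerset_apply_card (fun j => 2 ^ (D.Q * j) * τ j)]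
        simp

/-- the coefficient of the state sum, `k` steps from the end -/
noncomputable def K (x : ℤ) : ℤ := ∑ B : Finset E, dc (D.c B - 1) (x + 2 * B.card)

theorem K_eq_zero (x : ℤ) (hx : 2 * (D.c ∅ : ℤ) - 2 < x) : D.K x = 0 := by
  refine Finset.sum_eq_zero fun B _ => ?_
  apply dc_eq_zero
  have h1 := D.c_le ∅ B (Finset.empty_subset _)
  have h2 := D.pos B
  simp only [Finset.card_empty, add_zero] at h1
  push_cast [Nat.cast_sub h2]
  have : (D.c B : ℤ) ≤ D.c ∅ + B.card := by exact_mod_cast h1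
  linarith

theorem K_top : (D.K (2 * D.c ∅ - 2)).natAbs = 1 := by
  have h : D.K (2 * D.c ∅ - 2) = dc (D.c ∅ - 1) (2 * D.c ∅ - 2) := by
    rw [K, Finset.sum_eq_single ∅]
    · simp
    · intro B _ hB
      apply dc_eq_zero
      obtain ⟨e, he⟩ := Finset.nonempty_iff_ne_empty.2 hB
      have h0 := D.merge ∅ D.generic_empty e (Finset.notMem_empty e)
      have h1 := D.c_le (insert e ∅) B (by simpa using he)
      have h2 := D.pos B
      rw [Finset.card_insert_of_notMem (Finset.notMem_empty e)] at h1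
      simp only [Finset.card_empty] at h0 h1
      push_cast [Nat.cast_sub h2]
      have : (D.c B : ℤ) + 2 ≤ D.c ∅ + B.card := by
        have : D.c B + 2 ≤ D.c ∅ + B.card := by omega
        exact_mod_cast this
      linarith
    · intro h; exact absurd (Finset.mem_univ _) h
  rw [h]
  have h2 := D.pos ∅
  have h3 := dc_sub (D.c ∅ - 1) 0
  have h4 : 2 * ((D.c ∅ - 1 : ℕ) : ℤ) - 4 * (0 : ℕ) = 2 * D.c ∅ - 2 := by
    push_cast [Nat.cast_sub h2]; ring
  rw [h4] at h3
  rw [h3]
  simp [Int.natAbs_pow]

open Classical in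
/-- the number of generic sets of size `j` -/
noncomputable def g (j : ℕ) : ℕ := (Finset.univ.filter fun B : Finset E =>
  D.Generic B ∧ B.card = j).card

theorem g_le (j : ℕ) : D.g j ≤ (Fintype.card E).choose j := by
  classical
  rw [← Finset.card_univ, ← Finset.card_powersetCard]
  refine Finset.card_le_card fun B hB => ?_
  rw [Finset.mem_filter] at hB
  rw [Finset.mem_powersetCard]
  exact ⟨Finset.subset_univ _, hB.2.2⟩

theorem le_g (j : ℕ) : (Fintype.card E).choose j ≤
    D.g j + ∑ i ∈ range j, (Fintype.card E).choose i * 2 ^ (D.Q * i) := by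
  classical
  have h1 : (Fintype.card E).choose j ≤ D.g j + ∑ B ∈ D.bad, (if B.card = j then 1 else 0) := by
    rw [← Finset.card_univ, ← Finset.card_powersetCard, Finset.sum_boole]
    simp only [Nat.cast_id]
    rw [g, ← Finset.card_union_of_disjoint]
    · refine Finset.card_le_card fun B hB => ?_
      rw [Finset.mem_powersetCard] at hB
      rw [Finset.mem_union, Finset.mem_filter, Finset.mem_filter, bad, Finset.mem_filter]
      by_cases h : D.Generic B
      · exact Or.inl ⟨Finset.mem_univ _, h, hB.2⟩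
      · exact Or.inr ⟨⟨Finset.mem_univ _, h⟩, hB.2⟩
    · rw [Finset.disjoint_left]
      intro B hB hB'
      rw [Finset.mem_filter] at hB
      rw [Finset.mem_filter, bad, Finset.mem_filter] at hB'
      exact hB'.1.2 hB.2.1
  refine h1.trans (Nat.add_le_add_left ?_ _)
  have h2 := D.sum_bad_le (fun B => if B.card = j then 1 else 0) (fun i => if i < j then 1 else 0)
    (by
      intro B hB
      by_cases h : B.card = j
      · rw [if_pos h, if_pos]
        have hne : D.mx B ≠ B := fun h => hB (h ▸ D.mx_generic B)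
        rw [← h]
        exact Finset.card_lt_card (Finset.ssubset_iff_subset_ne.2 ⟨D.mx_subset B, hne⟩)
      · rw [if_neg h]; exact Nat.zero_le _)
  refine h2.trans ?_
  have h3 : ∀ i ∈ range j, (Fintype.card E).choose i * 2 ^ (D.Q * i) =
      (Fintype.card E).choose i * (2 ^ (D.Q * i) * if i < j then 1 else 0) := by
    intro i hi
    rw [Finset.mem_range] at hi
    rw [if_pos hi, mul_one]
  rw [Finset.sum_congr rfl h3]
  refine Finset.sum_le_sum_of_ne_zero fun i _ hi => ?_
  rw [Finset.mem_range]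
  by_contra hcon
  rw [if_neg hcon] at hi
  simp at hi

/-- The main estimate. -/
theorem K_estimate (k : ℕ) (hk : k + 1 ≤ D.c ∅) :
    ((-1) ^ (D.c ∅ - 1) * D.K (2 * D.c ∅ - 2 - 4 * k) -
      ∑ j ∈ range (k + 1), (-1) ^ j * (D.g j : ℤ) * ((D.c ∅ - 1 - j).choose (k - j) : ℤ)).natAbs ≤
    ∑ j ∈ range k, (Fintype.card E).choose j *
      (2 ^ (D.Q * j) * (D.c ∅ + D.Q * k) ^ (k - 1 - j)) := by
  classical
  have hsplit : D.K (2 * D.c ∅ - 2 - 4 * k) =
      ∑ B ∈ (Finset.univ.filter fun B => D.Generic B),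
        dc (D.c B - 1) (2 * D.c ∅ - 2 - 4 * k + 2 * B.card) +
      ∑ B ∈ D.bad, dc (D.c B - 1) (2 * D.c ∅ - 2 - 4 * k + 2 * B.card) :=
    (Finset.sum_filter_add_sum_filter_not _ _ _).symm
  have hgen : (-1) ^ (D.c ∅ - 1) * ∑ B ∈ (Finset.univ.filter fun B => D.Generic B),
        dc (D.c B - 1) (2 * D.c ∅ - 2 - 4 * k + 2 * B.card) =
      ∑ j ∈ range (k + 1), (-1) ^ j * (D.g j : ℤ) * ((D.c ∅ - 1 - j).choose (k - j) : ℤ) := by
    have h1 : ∀ B ∈ (Finset.univ.filter fun B => D.Generic B),
        (-1) ^ (D.c ∅ - 1) * dc (D.c B - 1) (2 * D.c ∅ - 2 - 4 * k + 2 * B.card) =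
        ∑ j ∈ range (k + 1), if B.card = j then
          (-1) ^ j * ((D.c ∅ - 1 - j).choose (k - j) : ℤ) else 0 := by
      intro B hB
      rw [Finset.mem_filter] at hB
      have h2 := D.c_generic B hB.2
      have h3 := D.pos B
      rw [Finset.sum_ite_eq]
      by_cases hBk : B.card ≤ k
      · rw [if_pos (Finset.mem_range.2 (by omega))]
        have h4 : D.c B - 1 = D.c ∅ - 1 - B.card := by omega
        have h5 : (2 * D.c ∅ - 2 - 4 * k + 2 * B.card : ℤ) =
            2 * ((D.c ∅ - 1 - B.card : ℕ) : ℤ) - 4 * ((k - B.card : ℕ) : ℤ) := by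
          have : ((D.c ∅ - 1 - B.card : ℕ) : ℤ) = D.c ∅ - 1 - B.card := by omega
          rw [this]
          push_cast [Nat.cast_sub hBk]
          ring
        rw [h4, h5, dc_sub]
        have h6 : (-1 : ℤ) ^ (D.c ∅ - 1) = (-1) ^ (D.c ∅ - 1 - B.card) * (-1) ^ B.card := by
          rw [← pow_add]
          congr 1
          omega
        rw [h6]
        have h7 : ((-1 : ℤ) ^ (D.c ∅ - 1 - B.card)) * (-1) ^ (D.c ∅ - 1 - B.card) = 1 := by
          rw [← mul_pow]; simp
        linear_combination ((-1) ^ B.card * ((D.c ∅ - 1 - B.card).choose (k - B.card) : ℤ)) * h7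
      · rw [if_neg (by rw [Finset.mem_range]; omega), dc_eq_zero, mul_zero]
        push_cast [Nat.cast_sub h3]
        have : (D.c B : ℤ) + B.card = D.c ∅ := by exact_mod_cast h2
        have : (k : ℤ) < B.card := by exact_mod_cast (not_le.1 hBk)
        linarith
    rw [Finset.mul_sum, Finset.sum_congr rfl h1, Finset.sum_comm]
    refine Finset.sum_congr rfl fun j _ => ?_
    rw [← Finset.sum_filter, Finset.sum_const, Finset.filter_filter, nsmul_eq_mul, g]
    ring
  rw [hsplit, mul_add, hgen, add_sub_cancel_left, Int.natAbs_mul, Int.natAbs_pow]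
  simp only [Int.reduceNeg, Int.natAbs_neg, Int.natAbs_one, one_pow, one_mul]
  have hle : (∑ B ∈ D.bad, dc (D.c B - 1) (2 * D.c ∅ - 2 - 4 * k + 2 * B.card)).natAbs ≤
      ∑ B ∈ D.bad, (dc (D.c B - 1) (2 * D.c ∅ - 2 - 4 * k + 2 * B.card)).natAbs :=
    Int.natAbs_sum_le _ _
  refine hle.trans ?_
  have h2 := D.sum_bad_le
    (fun B => (dc (D.c B - 1) (2 * D.c ∅ - 2 - 4 * k + 2 * B.card)).natAbs)
    (fun j => if j < k then (D.c ∅ + D.Q * k) ^ (k - 1 - j) else 0)
    (by
      intro B hB
      have h3 := D.mx_lt B hB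
      have h4 := D.pos B
      have h5 := D.card_le B
      have h6 : (D.c B : ℤ) + 2 * (D.mx B).card + 2 ≤ D.c ∅ + B.card := by exact_mod_cast h3
      by_cases hj : (D.mx B).card < k
      · rw [if_pos hj]
        refine natAbs_dc_le _ _ _ _ ?_ ?_ ?_
        · have h7 : D.Q * (D.mx B).card ≤ D.Q * k := Nat.mul_le_mul_left _ hj.le
          omega
        · have := D.pos ∅
          omega
        · have h8 : ((k - 1 - (D.mx B).card : ℕ) : ℤ) = k - 1 - (D.mx B).card := by omega
          rw [h8]
          push_cast [Nat.cast_sub h4]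
          linarith
      · rw [if_neg hj, dc_eq_zero]
        · simp
        · have h7 : (k : ℤ) ≤ (D.mx B).card := by exact_mod_cast (not_lt.1 hj)
          push_cast [Nat.cast_sub h4]
          linarith)
  refine h2.trans ?_
  have h3 : ∀ j ∈ range k, (Fintype.card E).choose j *
      (2 ^ (D.Q * j) * (D.c ∅ + D.Q * k) ^ (k - 1 - j)) =
      (Fintype.card E).choose j *
        (2 ^ (D.Q * j) * if j < k then (D.c ∅ + D.Q * k) ^ (k - 1 - j) else 0) := by
    intro j hj
    rw [Finset.mem_range] at hj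
    rw [if_pos hj]
  rw [Finset.sum_congr rfl h3]
  refine Finset.sum_le_sum_of_ne_zero fun j _ hj => ?_
  rw [Finset.mem_range]
  by_contra hcon
  rw [if_neg hcon] at hj
  simp at hj

end Data

end Pool.Agent.MP_592c03_gt
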