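import Mathlib

/-!
# The Jones polynomial of a closed braid, weaving links and twist numbers

The Jones polynomial is defined by the Kauffman state sum of the standard diagram of the closure
of a braid word.
-/

set_option autoImplicit false

namespace Pool.Agent.MP_592c03_gt

open LaurentPolynomial

/-- A braid word with `L` letters on `n + 1` strands (numbered `0, ..., n`).  The letter `s` acts on
the strands `i` and `i + 1`, where `i = (w s).1`; it is the generator `σ_{i+1}` when `(w s).2 = true`
(a positive crossing) and the inverse `σ_{i+1}⁻¹` when `(w s).2 = false` (a negative crossing). -/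
abbrev BraidWord (n L : ℕ) : Type := Fin L → Fin n × Bool

/-- A state of the closed braid diagram: `h s = true` means that the crossing `s` is smoothed
horizontally (cup and cap), `h s = false` that it is smoothed vertically (two through strands). -/
abbrev State (L : ℕ) : Type := Fin L → Bool

/-- The elementary connections in the smoothed closed braid diagram.  The point `(t, x)` is the
point of the strand position `x` in the horizontal slice `t`, where the slices `0, ..., L` are
numbered upwards and the letter `s` lies between the slices `s` and `s + 1`. -/
inductive Conn {n L : ℕ} (w : BraidWord n L) (h : State L) :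
    Fin (L + 1) × Fin (n + 1) → Fin (L + 1) × Fin (n + 1) → Prop
  /-- the closure of the braid joins the top slice to the bottom slice -/
  | closure (x : Fin (n + 1)) : Conn w h (Fin.last L, x) (0, x)
  /-- a strand goes straight up if it is not involved in the crossing or the crossing is
  smoothed vertically -/
  | up (s : Fin L) (x : Fin (n + 1))
      (hx : h s = false ∨ (x ≠ (w s).1.castSucc ∧ x ≠ (w s).1.succ)) :
      Conn w h (s.castSucc, x) (s.succ, x)
  /-- the arc at the bottom of a horizontally smoothed crossing -/
  | bottom (s : Fin L) (hs : h s = true) :
      Conn w h (s.castSucc, (w s).1.castSucc) (s.castSucc, (w s).1.succ)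
  /-- the arc at the top of a horizontally smoothed crossing -/
  | top (s : Fin L) (hs : h s = true) :
      Conn w h (s.succ, (w s).1.castSucc) (s.succ, (w s).1.succ)

/-- The number of closed loops of a state: the number of classes of points for the equivalence
relation generated by the elementary connections. -/
noncomputable def loops {n L : ℕ} (w : BraidWord n L) (h : State L) : ℕ :=
  Nat.card (Quot (Conn w h))

/-- The Kauffman bracket (normalised by `⟨unknot⟩ = 1`) of the closure of the braid word `w`, as a
Laurent polynomial in the variable `A`.  A positive letter has the vertical smoothing as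
`A`-smoothing, a negative letter the horizontal one, so the smoothing `h s` of the letter `s`
contributes the factor `A` if `(w s).2 ≠ h s` and `A⁻¹` if `(w s).2 = h s`. -/
noncomputable def bracket {n L : ℕ} (w : BraidWord n L) : ℤ[T;T⁻¹] :=
  ∑ h : State L, T (∑ s, if (w s).2 = h s then -1 else 1) * (-T 2 - T (-2)) ^ (loops w h - 1)

/-- The writhe of the closure of a braid word. -/
def writhe {n L : ℕ} (w : BraidWord n L) : ℤ := ∑ s, if (w s).2 then 1 else -1

/-- The Jones polynomial `V(t) = (-A³)^(-writhe) ⟨D⟩`, `t = A⁻⁴`, of the closure of a braid word,
as a Laurent polynomial in the variable `t^(1/4) = A⁻¹`: the coefficient of `t^e` in `V` is the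
coefficient at `4 e` here. -/
noncomputable def jones {n L : ℕ} (w : BraidWord n L) : ℤ[T;T⁻¹] :=
  invert (C ((writhe w).negOnePow : ℤ) * T (-3 * writhe w) * bracket w)

/-- The `k`-th twist number `|λ_{l+k}| + |λ_{h-k}|` of a Laurent polynomial
`λ_l t^l + ... + λ_h t^h`, `λ_l ≠ 0 ≠ λ_h`, given as a Laurent polynomial `f` in the variable
`t^(1/4)` (so that a step of `1` in the exponent of `t` is a step of `4` in `f`). -/
noncomputable def twistNumber (f : ℤ[T;T⁻¹]) (k : ℕ) : ℤ :=
  if hf : f.coeff.support.Nonempty then
    |f.coeff (f.coeff.support.min' hf + 4 * k)| + |f.coeff (f.coeff.support.max' hf - 4 * k)|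
  else 0

/-- The braid word `(σ₁ σ₂⁻¹ σ₃ σ₄⁻¹ ⋯ σₙ^{±1})^m` on `n + 1` strands, whose closure is the weaving
link `W(n+1, m)`.  The letter `s` is the generator number `s % n` (counted from `0`), with positive
sign if `s % n` is even and negative sign if it is odd. -/
def weaving (n m : ℕ) : BraidWord n (m * n) :=
  fun s => (s.modNat, decide (Even (s.modNat : ℕ)))

end Pool.Agent.MP_592c03_gt
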