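import Pool.Agent.Lib_MP_592c03_gt.Weaving2
import Pool.Agent.Lib_MP_592c03_gt.Asymp

/-!
# The number of loops of the reference states, and the limit
-/

set_option autoImplicit false

namespace Pool.Agent.MP_592c03_gt

open Finset Filter Topology LaurentPolynomial

section

variable {n m η : ℕ}

theorem face_of_rel (hn : 1 ≤ n) (hη : η < 2) {p q : Pt n (m * n)}
    (h : stateSetoid (weaving n m) (ref n m η) p q) : face n m η p = face n m η q := by
  let S : Setoid (Pt n (m * n)) :=
    { r := fun p q => face n m η p = face n m η q
      iseqv := ⟨fun _ => rfl, fun h => h.symm, fun h h' => h.trans h'⟩ }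
  exact gen_le _ _ _ S (fun e _ => face_ref_edge hη e hn) h

/-- letters that are smoothed horizontally in the reference state -/
abbrev J (n m η : ℕ) : Type := {s : Fin (m * n) // ref n m η s = true}

/-- the point above a letter -/
def top (s : Fin (m * n)) : Pt n (m * n) := (s.succ, (weaving n m s).1.castSucc)

theorem face_top (s : J n m η) (hη : η < 2) :
    face n m η (top s.1) = ((((s.1 : ℕ) / n + 1 : ℕ) : ZMod m), (s.1 : ℕ) % n + 1) := by
  have href : ((s.1 : ℕ) % n + 1) % 2 = η := by
    have := s.2
    simpa [ref] using this
  have h1 : src (weaving n m) (ref n m η) (edgeB (weaving n m) s.1) = top s.1 := by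
    simp [edgeB, src, s.2, top]
  rw [← h1]
  have := v_eq (m := m) hη s.1
  rw [v, if_neg (by omega)] at this
  exact this

theorem card_J_le (hn : 1 ≤ n) (hη : η < 2) : Nat.card (J n m η) ≤ cw n m η ∅ := by
  rw [cw, st_empty, loops_eq_cls, cls]
  refine Nat.card_le_card_of_injective
    (fun s => Quotient.mk (stateSetoid (weaving n m) (ref n m η)) (top s.1)) ?_
  intro s s' h
  have h1 := face_of_rel hn hη (Quotient.exact h)
  rw [face_top s hη, face_top s' hη, Prod.mk.injEq] at h1
  apply Subtype.ext
  refine letter_ext _ _ (block_inj (block_lt _) (block_lt _) ?_) (by omega)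
  have := h1.1
  push_cast at this
  exact add_right_cancel this

/-- a strand can be followed through a letter outside its column -/
theorem rel_vertical (_hη : η < 2) (s : Fin (m * n)) (x : Fin (n + 1))
    (hx : col η x ≠ (s : ℕ) % n + 1) :
    stateSetoid (weaving n m) (ref n m η) (s.castSucc, x) (s.succ, x) := by
  have hcs := weaving_castSucc n m s
  have hss := weaving_succ n m s
  have h1 : ¬ (ref n m η s = true ∧ x = (weaving n m s).1.succ) := by
    rintro ⟨h1, h2⟩
    have href : ((s : ℕ) % n + 1) % 2 = η := by simpa [ref] using h1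
    apply hx
    rw [h2, hss, col, if_pos href]
  have h2 : ¬ (ref n m η s = true ∧ x = (weaving n m s).1.castSucc) := by
    rintro ⟨h1, h2⟩
    have href : ((s : ℕ) % n + 1) % 2 = η := by simpa [ref] using h1
    apply hx
    rw [h2, hcs, col, if_neg (by omega)]
  have h3 := gen_edge (src (weaving n m) (ref n m η)) (tgt (weaving n m) (ref n m η)) Set.univ
    (Set.mem_univ (Sum.inr (s, x)))
  simp only [src, tgt, if_neg h1, if_neg h2] at h3
  exact h3

theorem col_cases (η x : ℕ) : col η x = x ∨ col η x = x + 1 := by
  rw [col]; split_ifs <;> simp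

/-- the strand of an outer face, or the lowest part of any strand, is connected to the bottom -/
theorem rel_bottom (hη : η < 2) (x : Fin (n + 1)) (t : ℕ) (ht : t < m * n + 1)
    (h : col η x = 0 ∨ col η x = n + 1 ∨ t < col η x) :
    stateSetoid (weaving n m) (ref n m η) (⟨t, ht⟩, x) (0, x) := by
  induction t with
  | zero => exact (stateSetoid (weaving n m) (ref n m η)).refl _
  | succ t ih =>
    have hcol := col_cases η x
    have hx := x.2
    have h1 := ih (by omega) (by omega)
    let s : Fin (m * n) := ⟨t, by omega⟩
    have hi := letter_mod_lt s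
    have hsv : (s : ℕ) = t := rfl
    have h2 : col η x ≠ (s : ℕ) % n + 1 := by
      intro h3
      rcases h with h | h | h
      · omega
      · omega
      · rw [hsv] at h3 hi
        have : t < n := by omega
        rw [Nat.mod_eq_of_lt this] at h3
        omega
    exact (stateSetoid (weaving n m) (ref n m η)).trans
      ((stateSetoid (weaving n m) (ref n m η)).symm (rel_vertical hη s x h2)) h1

theorem rel_top (hη : η < 2) (x : Fin (n + 1)) (t : ℕ) (ht : t < m * n + 1)
    (h0 : col η x ≠ 0) (h1 : col η x ≠ n + 1) (h : col η x ≤ t) :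
    ∃ s : J n m η, stateSetoid (weaving n m) (ref n m η) (⟨t, ht⟩, x) (top s.1) := by
  induction t with
  | zero => omega
  | succ t ih =>
    have hcol := col_cases η x
    have hx := x.2
    let s : Fin (m * n) := ⟨t, by omega⟩
    have hi := letter_mod_lt s
    have hsv : (s : ℕ) = t := rfl
    have hcs := weaving_castSucc n m s
    have hss := weaving_succ n m s
    by_cases hc : col η x = (s : ℕ) % n + 1
    · have href : ref n m η s = true := by
        have : col η x % 2 = η := by
          rw [col]; split_ifs <;> omega
        rw [hc] at this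
        simpa [ref] using this
      refine ⟨⟨s, href⟩, ?_⟩
      by_cases hxs : x = (weaving n m s).1.succ
      · have h3 := gen_edge (src (weaving n m) (ref n m η)) (tgt (weaving n m) (ref n m η))
          Set.univ (Set.mem_univ (edgeB (weaving n m) s))
        have h4 : src (weaving n m) (ref n m η) (edgeB (weaving n m) s) = top s := by
          simp [edgeB, src, href, top]
        have h5 : tgt (weaving n m) (ref n m η) (edgeB (weaving n m) s) = (s.succ, x) := by
          have hne : ¬ ((weaving n m s).1.succ = (weaving n m s).1.castSucc) :=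
            fun h => castSucc_ne_succ' _ h.symm
          simp [edgeB, tgt, hne, hxs]
        rw [h4, h5] at h3
        exact (stateSetoid (weaving n m) (ref n m η)).symm h3
      · have hxc : x = (weaving n m s).1.castSucc := by
          apply Fin.ext
          rw [hcs]
          have : (x : ℕ) ≠ (s : ℕ) % n + 1 := fun h => hxs (Fin.ext (by rw [hss, h]))
          omega
        have h4 : (s.succ, x) = top s := by rw [top, hxc]
        have h5 : ((⟨t + 1, ht⟩, x) : Pt n (m * n)) = (s.succ, x) := rfl
        rw [h5, h4]
    · have hle : col η x ≤ t := by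
        by_contra hcon
        apply hc
        have : t < n := by omega
        rw [hsv, Nat.mod_eq_of_lt this]
        omega
      obtain ⟨s', hs'⟩ := ih (by omega) hle
      exact ⟨s', (stateSetoid (weaving n m) (ref n m η)).trans
        ((stateSetoid (weaving n m) (ref n m η)).symm (rel_vertical hη s x hc)) hs'⟩

theorem le_card_J (hm : 1 ≤ m) (hη : η < 2) : cw n m η ∅ ≤ Nat.card (J n m η) + 2 := by
  rw [cw, st_empty, loops_eq_cls, cls]
  have h2 : Nat.card (J n m η ⊕ Bool) = Nat.card (J n m η) + 2 := by
    rw [Nat.card_sum]; simp
  rw [← h2]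
  refine Nat.card_le_card_of_surjective
    (fun j => Quotient.mk (stateSetoid (weaving n m) (ref n m η)) (match j with
      | Sum.inl s => top s.1
      | Sum.inr false => (0, 0)
      | Sum.inr true => (0, Fin.last n))) ?_
  intro q
  induction q using Quotient.ind with | _ p
  obtain ⟨⟨t, ht⟩, x⟩ := p
  have hcol := col_cases η x
  have hx := x.2
  by_cases h0 : col η x = 0
  · refine ⟨Sum.inr false, Quotient.sound ?_⟩
    have hx0 : x = 0 := Fin.ext (by simp only [Fin.val_zero]; omega)
    have := rel_bottom hη x t ht (Or.inl h0)
    rw [← hx0]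
    exact (stateSetoid (weaving n m) (ref n m η)).symm this
  · by_cases h1 : col η x = n + 1
    · refine ⟨Sum.inr true, Quotient.sound ?_⟩
      have hx0 : x = Fin.last n := Fin.ext (by simp only [Fin.val_last]; omega)
      have := rel_bottom hη x t ht (Or.inr (Or.inl h1))
      rw [← hx0]
      exact (stateSetoid (weaving n m) (ref n m η)).symm this
    · by_cases h2 : col η x ≤ t
      · obtain ⟨s, hs⟩ := rel_top hη x t ht h0 h1 h2
        exact ⟨Sum.inl s, Quotient.sound ((stateSetoid (weaving n m) (ref n m η)).symm hs)⟩
      · have h3 := rel_bottom hη x t ht (Or.inr (Or.inr (by omega)))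
        have h4 : stateSetoid (weaving n m) (ref n m η) (Fin.last (m * n), x) (0, x) :=
          gen_edge (src (weaving n m) (ref n m η)) (tgt (weaving n m) (ref n m η)) Set.univ
            (Set.mem_univ (Sum.inl x))
        have hnm : n ≤ m * n := Nat.le_mul_of_pos_left n hm
        obtain ⟨s, hs⟩ := rel_top (m := m) hη x (m * n) (by omega) h0 h1 (by omega)
        refine ⟨Sum.inl s, Quotient.sound ?_⟩
        refine (stateSetoid (weaving n m) (ref n m η)).symm ?_
        exact (stateSetoid (weaving n m) (ref n m η)).trans h3
          ((stateSetoid (weaving n m) (ref n m η)).trans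
            ((stateSetoid (weaving n m) (ref n m η)).symm h4) hs)

theorem count_parity (n η : ℕ) (hη : η < 2) :
    ((Finset.range n).filter fun i => (i + 1) % 2 = η).card = (n + η) / 2 := by
  induction n with
  | zero => simp; omega
  | succ n ih =>
    rw [Finset.range_add_one, Finset.filter_insert]
    split_ifs with h
    · rw [Finset.card_insert_of_notMem (by simp), ih]; omega
    · rw [ih]; omega

theorem card_J (hη : η < 2) : Nat.card (J n m η) = m * ((n + η) / 2) := by
  classical
  have h1 : Nat.card (J n m η) = Nat.card (Fin m × {i : Fin n // ((i : ℕ) + 1) % 2 = η}) := by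
    refine Nat.card_congr ?_
    refine (Equiv.subtypeEquiv finProdFinEquiv.symm
      (q := fun p : Fin m × Fin n => ((p.2 : ℕ) + 1) % 2 = η) ?_).trans ?_
    · intro s
      simp [ref, finProdFinEquiv]
    · exact
      { toFun := fun p => (p.1.1, ⟨p.1.2, p.2⟩)
        invFun := fun p => ⟨(p.1, p.2.1), p.2.2⟩
        left_inv := fun p => rfl
        right_inv := fun p => rfl }
  rw [h1, Nat.card_prod, Nat.card_eq_fintype_card, Fintype.card_fin, Nat.card_eq_fintype_card,
    Fintype.card_subtype, ← count_parity n η hη]
  congr 1
  rw [← Finset.card_map Fin.valEmbedding]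
  congr 1
  ext i
  simp only [Finset.mem_map, Finset.mem_filter, Finset.mem_univ, true_and, Fin.valEmbedding_apply,
    Finset.mem_range]
  constructor
  · rintro ⟨a, ha, rfl⟩
    exact ⟨a.2, ha⟩
  · rintro ⟨h1, h2⟩
    exact ⟨⟨i, h1⟩, h2, rfl⟩

end

end Pool.Agent.MP_592c03_gt
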