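import Mathlib

/-!
# Gluing two classes of an equivalence relation
-/

set_option autoImplicit false

namespace Pool.Agent.MP_592c03_gt

variable {α : Type*}

/-- identify the classes of `u` and `v` -/
def glue (S : Setoid α) (u v : α) : Setoid α where
  r x y := S x y ∨ (S x u ∧ S v y) ∨ (S x v ∧ S u y)
  iseqv := by
    refine ⟨fun x => Or.inl (S.refl x), ?_, ?_⟩
    · rintro x y (h | ⟨h1, h2⟩ | ⟨h1, h2⟩)
      · exact Or.inl (S.symm h)
      · exact Or.inr (Or.inr ⟨S.symm h2, S.symm h1⟩)
      · exact Or.inr (Or.inl ⟨S.symm h2, S.symm h1⟩)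
    · rintro x y z (h | ⟨h1, h2⟩ | ⟨h1, h2⟩) (k | ⟨k1, k2⟩ | ⟨k1, k2⟩)
      · exact Or.inl (S.trans h k)
      · exact Or.inr (Or.inl ⟨S.trans h k1, k2⟩)
      · exact Or.inr (Or.inr ⟨S.trans h k1, k2⟩)
      · exact Or.inr (Or.inl ⟨h1, S.trans h2 k⟩)
      · exact Or.inr (Or.inl ⟨h1, k2⟩)
      · exact Or.inl (S.trans h1 k2)
      · exact Or.inr (Or.inr ⟨h1, S.trans h2 k⟩)
      · exact Or.inl (S.trans h1 k2)
      · exact Or.inr (Or.inr ⟨h1, k2⟩)

theorem glue_rel (S : Setoid α) (u v x y : α) :
    glue S u v x y ↔ S x y ∨ (S x u ∧ S v y) ∨ (S x v ∧ S u y) := Iff.rfl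

theorem le_glue (S : Setoid α) (u v : α) {x y : α} (h : S x y) : glue S u v x y := Or.inl h

theorem glue_self (S : Setoid α) (u v : α) : glue S u v u v :=
  Or.inr (Or.inl ⟨S.refl u, S.refl v⟩)

theorem glue_comm (S : Setoid α) (u v : α) : glue S u v = glue S v u := by
  ext x y
  rw [glue_rel, glue_rel]
  tauto

theorem glue_eq_of_rel (S : Setoid α) {u v : α} (h : S u v) : glue S u v = S := by
  ext x y
  rw [glue_rel]
  constructor
  · rintro (k | ⟨k1, k2⟩ | ⟨k1, k2⟩)
    · exact k
    · exact S.trans k1 (S.trans h k2)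
    · exact S.trans k1 (S.trans (S.symm h) k2)
  · exact Or.inl

/-- number of classes -/
noncomputable def cls (S : Setoid α) : ℕ := Nat.card (Quotient S)

theorem cls_pos [Finite α] [Nonempty α] (S : Setoid α) : 0 < cls S := by
  have : Nonempty (Quotient S) := ‹Nonempty α›.map (Quotient.mk S)
  exact Nat.card_pos

theorem cls_glue_add_one [Finite α] (S : Setoid α) {u v : α} (h : ¬ S u v) :
    cls (glue S u v) + 1 = cls S := by
  classical
  have key : Nat.card {q : Quotient S // q ≠ Quotient.mk S v} = cls (glue S u v) := by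
    refine Nat.card_congr (Equiv.ofBijective
      (fun q => Quotient.map' (s₁ := S) (s₂ := glue S u v) id (fun a b hab => Or.inl hab) q.1) ?_)
    constructor
    · rintro ⟨q1, h1⟩ ⟨q2, h2⟩ h12
      induction q1 using Quotient.ind with | _ x
      induction q2 using Quotient.ind with | _ y
      simp only [Subtype.mk.injEq]
      have h12' : glue S u v x y := Quotient.exact h12
      rcases h12' with k | ⟨k1, k2⟩ | ⟨k1, k2⟩
      · exact Quotient.sound k
      · exact absurd (Quotient.sound (S.symm k2)) h2
      · exact absurd (Quotient.sound k1) h1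
    · intro q
      induction q using Quotient.ind with | _ x
      by_cases hx : (Quotient.mk S x) = Quotient.mk S v
      · refine ⟨⟨Quotient.mk S u, fun h' => h (Quotient.exact h')⟩, ?_⟩
        have hxv : S x v := Quotient.exact hx
        exact Quotient.sound (s := glue S u v)
          (show glue S u v u x from Or.inr (Or.inl ⟨S.refl u, S.symm hxv⟩))
      · exact ⟨⟨Quotient.mk S x, hx⟩, rfl⟩
  rw [← key]
  have := Fintype.ofFinite (Quotient S)
  rw [cls, Nat.card_eq_fintype_card, Nat.card_eq_fintype_card, Fintype.card_subtype_compl,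
    Fintype.card_subtype_eq]
  have : 0 < Fintype.card (Quotient S) := Fintype.card_pos_iff.2 ⟨Quotient.mk S v⟩
  omega

theorem cls_glue_le [Finite α] (S : Setoid α) (u v : α) : cls (glue S u v) ≤ cls S := by
  by_cases h : S u v
  · rw [glue_eq_of_rel S h]
  · have := cls_glue_add_one S h; omega

theorem cls_le_glue [Finite α] (S : Setoid α) (u v : α) : cls S ≤ cls (glue S u v) + 1 := by
  by_cases h : S u v
  · rw [glue_eq_of_rel S h]; omega
  · have := cls_glue_add_one S h; omega

/-- switching the two ways of joining four points changes the number of classes by at most one -/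
theorem cls_switch_le [Finite α] (S : Setoid α) (a b c d : α) :
    cls (glue (glue S a b) c d) ≤ cls (glue (glue S a c) b d) + 1 := by
  by_cases h : S a b ∧ S c d
  · obtain ⟨hab, hcd⟩ := h
    rw [glue_eq_of_rel S hab, glue_eq_of_rel S hcd]
    have : glue S a c b d := Or.inr (Or.inl ⟨S.symm hab, hcd⟩)
    rw [glue_eq_of_rel _ this]
    exact cls_le_glue S a c
  · have h1 : cls (glue (glue S a b) c d) + 1 ≤ cls S := by
      by_cases hab : S a b
      · have hcd : ¬ S c d := fun h' => h ⟨hab, h'⟩
        rw [glue_eq_of_rel S hab, cls_glue_add_one S hcd]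
      · have e1 := cls_glue_add_one S hab
        have e2 := cls_glue_le (glue S a b) c d
        omega
    have h2 := cls_le_glue S a c
    have h3 := cls_le_glue (glue S a c) b d
    omega

/-- The parity argument: in a finite multigraph in which every vertex has even degree, an edge
can be removed without changing the components. -/
theorem parity_argument {P E : Type*} [Fintype P] [Fintype E] [DecidableEq E] (src tgt : E → P)
    (H : ∀ φ : P → ZMod 2, ∑ e, (φ (src e) + φ (tgt e)) = 0) (S : Setoid P) (e₁ e₂ : E)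
    (h12 : e₁ ≠ e₂) (hS : ∀ e, e ≠ e₁ → e ≠ e₂ → S (src e) (tgt e))
    (hsep1 : ¬ S (src e₁) (src e₂)) (hsep2 : ¬ S (src e₁) (tgt e₂)) :
    S (src e₁) (tgt e₁) := by
  classical
  by_contra hcon
  have h := H (fun p => if S (src e₁) p then 1 else 0)
  rw [← Finset.add_sum_erase _ _ (Finset.mem_univ e₁),
    ← Finset.add_sum_erase _ _ (Finset.mem_erase.2 ⟨h12.symm, Finset.mem_univ e₂⟩)] at h
  rw [Finset.sum_eq_zero] at h
  · rw [if_pos (S.refl _), if_neg hcon, if_neg hsep1, if_neg hsep2] at h
    simp at h
  · intro e he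
    rw [Finset.mem_erase, Finset.mem_erase] at he
    have h1 := hS e he.2.1 he.1
    by_cases h2 : S (src e₁) (src e)
    · rw [if_pos h2, if_pos (S.trans h2 h1)]
      decide
    · rw [if_neg h2, if_neg (fun h3 => h2 (S.trans h3 (S.symm h1)))]
      simp

end Pool.Agent.MP_592c03_gt
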