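import Pool.Agent.Lib_MP_592c03_gt.Final

/-!
# Twist numbers of weaving links
-/

set_option autoImplicit false

namespace Pool.Agent.MP_592c03_gt

open Finset Filter Topology LaurentPolynomial

theorem coeff_T_mul (a x : ℤ) (f : ℤ[T;T⁻¹]) : (T a * f).coeff x = f.coeff (x - a) := by
  rw [T, AddMonoidAlgebra.coeff_single_mul_apply, one_mul]
  congr 1
  ring

theorem coeff_C_mul (c x : ℤ) (f : ℤ[T;T⁻¹]) : (C c * f).coeff x = c * f.coeff x := by
  rw [← single_eq_C, AddMonoidAlgebra.coeff_single_mul_apply]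
  simp

section

variable {n m : ℕ}

theorem st_bijective (n m η : ℕ) : Function.Bijective (st n m η) := by
  rw [Fintype.bijective_iff_injective_and_card]
  refine ⟨?_, by simp⟩
  intro B B' h
  ext s
  have := congrFun h s
  simp only [st] at this
  have h2 : decide (s ∈ B) = decide (s ∈ B') := by
    revert this
    cases ref n m η s <;> cases decide (s ∈ B) <;> cases decide (s ∈ B') <;> simp
  simpa using h2

theorem sum_sign (B : Finset (Fin (m * n))) :
    (∑ s, if s ∈ B then (-1 : ℤ) else 1) = (m * n : ℕ) - 2 * B.card := by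
  have h1 : ∀ s : Fin (m * n), (if s ∈ B then (-1 : ℤ) else 1) = 1 - 2 * (if s ∈ B then 1 else 0) := by
    intro s; split_ifs <;> norm_num
  simp only [h1, Finset.sum_sub_distrib, ← Finset.mul_sum]
  simp

theorem bracket_coeff_zero (x : ℤ) : (bracket (weaving n m)).coeff x =
    ∑ B : Finset (Fin (m * n)), dc (cw n m 0 B - 1) (x - (m * n : ℕ) + 2 * B.card) := by
  rw [bracket, AddMonoidAlgebra.coeff_sum, Finset.sum_apply',
    ← (st_bijective n m 0).sum_comp]
  refine Finset.sum_congr rfl fun B _ => ?_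
  rw [coeff_T_mul, ← dc, cw]
  congr 1
  have h1 : (∑ s, if (weaving n m s).2 = st n m 0 B s then (-1 : ℤ) else 1) =
      ∑ s, if s ∈ B then (-1 : ℤ) else 1 := by
    refine Finset.sum_congr rfl fun s _ => ?_
    have h2 : ((weaving n m s).2 = st n m 0 B s) ↔ s ∈ B := by
      by_cases hs : s ∈ B <;> by_cases hp : (s : ℕ) % n % 2 = 0
      · have : ¬ ((s : ℕ) % n + 1) % 2 = 0 := by omega
        simp [weaving, st, ref, hs, this, Nat.even_iff, hp]
      · have : ((s : ℕ) % n + 1) % 2 = 0 := by omega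
        simp [weaving, st, ref, hs, this, Nat.even_iff, hp]
      · have : ¬ ((s : ℕ) % n + 1) % 2 = 0 := by omega
        simp [weaving, st, ref, hs, this, Nat.even_iff, hp]
      · have : ((s : ℕ) % n + 1) % 2 = 0 := by omega
        simp [weaving, st, ref, hs, this, Nat.even_iff, hp]
    simp only [h2]
  rw [h1, sum_sign]
  ring

theorem bracket_coeff_one (x : ℤ) : (bracket (weaving n m)).coeff (-x) =
    ∑ B : Finset (Fin (m * n)), dc (cw n m 1 B - 1) (x - (m * n : ℕ) + 2 * B.card) := by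
  rw [bracket, AddMonoidAlgebra.coeff_sum, Finset.sum_apply',
    ← (st_bijective n m 1).sum_comp]
  refine Finset.sum_congr rfl fun B _ => ?_
  rw [coeff_T_mul, ← dc, ← dc_neg, cw]
  congr 1
  have h1 : (∑ s, if (weaving n m s).2 = st n m 1 B s then (-1 : ℤ) else 1) =
      -∑ s, if s ∈ B then (-1 : ℤ) else 1 := by
    rw [← Finset.sum_neg_distrib]
    refine Finset.sum_congr rfl fun s _ => ?_
    have h2 : ((weaving n m s).2 = st n m 1 B s) ↔ s ∉ B := by
      by_cases hs : s ∈ B <;> by_cases hp : (s : ℕ) % n % 2 = 0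
      · have : ((s : ℕ) % n + 1) % 2 = 1 := by omega
        simp [weaving, st, ref, hs, this, Nat.even_iff, hp]
      · have : ¬ ((s : ℕ) % n + 1) % 2 = 1 := by omega
        simp [weaving, st, ref, hs, this, Nat.even_iff, hp]
      · have : ((s : ℕ) % n + 1) % 2 = 1 := by omega
        simp [weaving, st, ref, hs, this, Nat.even_iff, hp]
      · have : ¬ ((s : ℕ) % n + 1) % 2 = 1 := by omega
        simp [weaving, st, ref, hs, this, Nat.even_iff, hp]
    simp only [h2]
    by_cases hs : s ∈ B <;> simp [hs]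
  rw [h1, sum_sign]
  ring

theorem jones_coeff {N L : ℕ} (w : BraidWord N L) (y : ℤ) : (jones w).coeff y =
    ((writhe w).negOnePow : ℤ) * (bracket w).coeff (-y + 3 * writhe w) := by
  rw [jones, invert_apply, mul_assoc, coeff_C_mul, coeff_T_mul]
  congr 2
  ring

theorem twistNumber_eq (f : ℤ[T;T⁻¹]) (k : ℕ) (lo hi : ℤ) (h1 : f.coeff lo ≠ 0)
    (h2 : ∀ x < lo, f.coeff x = 0) (h3 : f.coeff hi ≠ 0) (h4 : ∀ x, hi < x → f.coeff x = 0) :
    twistNumber f k = |f.coeff (lo + 4 * k)| + |f.coeff (hi - 4 * k)| := by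
  have hf : f.coeff.support.Nonempty := ⟨lo, Finsupp.mem_support_iff.2 h1⟩
  have hmin : f.coeff.support.min' hf = lo := by
    apply le_antisymm
    · exact Finset.min'_le _ _ (Finsupp.mem_support_iff.2 h1)
    · by_contra hcon
      exact Finsupp.mem_support_iff.1 (Finset.min'_mem _ hf) (h2 _ (not_le.1 hcon))
  have hmax : f.coeff.support.max' hf = hi := by
    apply le_antisymm
    · by_contra hcon
      exact Finsupp.mem_support_iff.1 (Finset.max'_mem _ hf) (h4 _ (not_le.1 hcon))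
    · exact Finset.le_max' _ _ (Finsupp.mem_support_iff.2 h3)
  rw [twistNumber, dif_pos hf, hmin, hmax]

theorem negOnePow_natAbs (w : ℤ) : ((w.negOnePow : ℤˣ) : ℤ).natAbs = 1 :=
  Int.isUnit_iff_natAbs_eq.1 (w.negOnePow).isUnit

theorem negOnePow_ne_zero (w : ℤ) : ((w.negOnePow : ℤˣ) : ℤ) ≠ 0 := (w.negOnePow).ne_zero

theorem twistNumber_weaving (hn : 2 ≤ n) (hm : 3 ≤ m) (k : ℕ) :
    twistNumber (jones (weaving n m)) k =
      (((wdata n m 0 hn hm (by norm_num)).K
        (2 * ((wdata n m 0 hn hm (by norm_num)).c ∅ : ℤ) - 2 - 4 * k)).natAbs : ℤ) +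
      (((wdata n m 1 hn hm (by norm_num)).K
        (2 * ((wdata n m 1 hn hm (by norm_num)).c ∅ : ℤ) - 2 - 4 * k)).natAbs : ℤ) := by
  set D0 := wdata n m 0 hn hm (by norm_num) with hD0
  set D1 := wdata n m 1 hn hm (by norm_num) with hD1
  have hK0 : ∀ x : ℤ, (bracket (weaving n m)).coeff x = D0.K (x - (m * n : ℕ)) :=
    fun x => bracket_coeff_zero x
  have hK1 : ∀ x : ℤ, (bracket (weaving n m)).coeff (-x) = D1.K (x - (m * n : ℕ)) :=
    fun x => bracket_coeff_one x
  set W := writhe (weaving n m) with hW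
  have hne0 : D0.K (2 * D0.c ∅ - 2) ≠ 0 := by
    intro h; have := D0.K_top; rw [h] at this; simp at this
  have hne1 : D1.K (2 * D1.c ∅ - 2) ≠ 0 := by
    intro h; have := D1.K_top; rw [h] at this; simp at this
  have hJ0 : ∀ x : ℤ, (jones (weaving n m)).coeff (3 * W - (m * n : ℕ) - x) =
      (W.negOnePow : ℤ) * D0.K x := by
    intro x
    rw [jones_coeff, ← hW, hK0]
    congr 2
    ring
  have hJ1 : ∀ x : ℤ, (jones (weaving n m)).coeff (3 * W + (m * n : ℕ) + x) =
      (W.negOnePow : ℤ) * D1.K x := by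
    intro x
    have h1 : -(3 * W + (m * n : ℕ) + x) + 3 * W = -((m * n : ℕ) + x) := by ring
    rw [jones_coeff, ← hW, h1, hK1]
    congr 2
    ring
  rw [twistNumber_eq (jones (weaving n m)) k (3 * W - (m * n : ℕ) - (2 * D0.c ∅ - 2))
    (3 * W + (m * n : ℕ) + (2 * D1.c ∅ - 2))]
  · have h1 : (3 * W - (m * n : ℕ) - (2 * D0.c ∅ - 2) + 4 * k : ℤ) =
        3 * W - (m * n : ℕ) - (2 * D0.c ∅ - 2 - 4 * k) := by ring
    have h2 : (3 * W + (m * n : ℕ) + (2 * D1.c ∅ - 2) - 4 * k : ℤ) =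
        3 * W + (m * n : ℕ) + (2 * D1.c ∅ - 2 - 4 * k) := by ring
    rw [h1, h2, hJ0, hJ1, Int.abs_eq_natAbs, Int.abs_eq_natAbs, Int.natAbs_mul, Int.natAbs_mul,
      negOnePow_natAbs, one_mul, one_mul]
  · rw [hJ0]
    exact mul_ne_zero (negOnePow_ne_zero _) hne0
  · intro x hx
    have h1 : x = 3 * W - (m * n : ℕ) - (3 * W - (m * n : ℕ) - x) := by ring
    rw [h1, hJ0, D0.K_eq_zero, mul_zero]
    linarith
  · rw [hJ1]
    exact mul_ne_zero (negOnePow_ne_zero _) hne1
  · intro x hx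
    have h1 : x = 3 * W + (m * n : ℕ) + (x - (3 * W + (m * n : ℕ))) := by ring
    rw [h1, hJ1, D1.K_eq_zero, mul_zero]
    linarith

end

theorem tendsto_cw (n η : ℕ) (hn : 2 ≤ n) (hη : η < 2) :
    Tendsto (fun m : ℕ => ((cw n (m + 3) η ∅ : ℕ) : ℝ) / (m + 3 : ℝ)) atTop
      (𝓝 (((n + η) / 2 : ℕ) : ℝ)) := by
  have hs : Tendsto (fun m : ℕ => (m + 3 : ℝ)) atTop atTop :=
    tendsto_atTop_add_const_right _ _ tendsto_natCast_atTop_atTop
  have h0 : Tendsto (fun m : ℕ => (2 : ℝ) / (m + 3 : ℝ)) atTop (𝓝 0) := hs.const_div_atTop _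
  have h1 : Tendsto (fun m : ℕ => (((n + η) / 2 : ℕ) : ℝ) + (2 : ℝ) / (m + 3 : ℝ)) atTop
      (𝓝 (((n + η) / 2 : ℕ) : ℝ)) := by
    simpa using h0.const_add (((n + η) / 2 : ℕ) : ℝ)
  refine tendsto_of_tendsto_of_tendsto_of_le_of_le tendsto_const_nhds h1 ?_ ?_
  · intro m
    have h2 := card_J_le (n := n) (m := m + 3) (by omega) hη
    rw [card_J hη] at h2
    have h3 : (0 : ℝ) < m + 3 := by positivity
    simp only
    rw [le_div_iff₀ h3]
    have h4 : (((m + 3) * ((n + η) / 2) : ℕ) : ℝ) ≤ (cw n (m + 3) η ∅ : ℕ) := by exact_mod_cast h2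
    push_cast at h4 ⊢
    linarith
  · intro m
    have h2 := le_card_J (n := n) (m := m + 3) (by omega) hη
    rw [card_J hη] at h2
    have h3 : (0 : ℝ) < m + 3 := by positivity
    simp only
    have h5 : ((((n + η) / 2 : ℕ) : ℝ) + 2 / (m + 3 : ℝ)) * (m + 3 : ℝ) =
        (((n + η) / 2 : ℕ) : ℝ) * (m + 3 : ℝ) + 2 := by
      field_simp
    rw [div_le_iff₀ h3, h5]
    have h4 : ((cw n (m + 3) η ∅ : ℕ) : ℝ) ≤ (((m + 3) * ((n + η) / 2) + 2 : ℕ) : ℝ) := by
      exact_mod_cast h2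
    push_cast at h4 ⊢
    linarith

theorem tendsto_part (n η : ℕ) (hn : 2 ≤ n) (hη : η < 2) (k : ℕ) :
    Tendsto (fun m : ℕ => ((((wdata n (m + 3) η hn (by omega) hη).K
        (2 * ((wdata n (m + 3) η hn (by omega) hη).c ∅ : ℤ) - 2 - 4 * k)).natAbs : ℕ) : ℝ) /
        (m + 3 : ℝ) ^ k) atTop
      (𝓝 ((((n + 1 - η) / 2 : ℕ) : ℝ) ^ k / k.factorial)) := by
  have hs : Tendsto (fun m : ℕ => (m + 3 : ℝ)) atTop atTop :=
    tendsto_atTop_add_const_right _ _ tendsto_natCast_atTop_atTop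
  have h := K_tendsto (fun m => wdata n (m + 3) η hn (by omega) hη) hs (ν := n)
    (κ := ((n + η) / 2 : ℕ)) (Q := 5 * n) ?_ (tendsto_cw n η hn hη) (fun m => rfl) ?_ k
  · have h1 : |(((n + η) / 2 : ℕ) : ℝ) - n| = (((n + 1 - η) / 2 : ℕ) : ℝ) := by
      have h2 : (((n + η) / 2 : ℕ) : ℝ) + (((n + 1 - η) / 2 : ℕ) : ℝ) = n := by
        have : (n + η) / 2 + (n + 1 - η) / 2 = n := by omega
        exact_mod_cast this
      have h3 : (0 : ℝ) ≤ (((n + 1 - η) / 2 : ℕ) : ℝ) := by positivity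
      rw [abs_of_nonpos (by linarith)]
      linarith
    rw [h1] at h
    exact h
  · refine tendsto_const_nhds.congr fun m => ?_
    rw [Fintype.card_fin]
    have h3 : (m + 3 : ℝ) ≠ 0 := by positivity
    push_cast
    field_simp
  · have : 0 < (n + η) / 2 := by omega
    exact_mod_cast this

/-- The twist numbers of the weaving links. -/
theorem main (n : ℕ) (hn : 2 ≤ n) (k : ℕ) :
    Tendsto (fun m : ℕ => (twistNumber (jones (weaving n m)) k : ℝ) /
      ((((n / 2 + n % 2 : ℕ) : ℝ) ^ k + ((n / 2 : ℕ) : ℝ) ^ k) * (m : ℝ) ^ k / k.factorial))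
      atTop (𝓝 1) := by
  rw [← tendsto_add_atTop_iff_nat 3]
  have h0 := tendsto_part n 0 hn (by norm_num) k
  have h1 := tendsto_part n 1 hn (by norm_num) k
  have h2 := h0.add h1
  have e0 : (n + 1 - 0) / 2 = n / 2 + n % 2 := by omega
  have e1 : (n + 1 - 1) / 2 = n / 2 := by omega
  rw [e0, e1] at h2
  set a : ℝ := ((n / 2 + n % 2 : ℕ) : ℝ) with ha
  set b : ℝ := ((n / 2 : ℕ) : ℝ) with hb
  have hbpos : 0 < b := by
    rw [hb]
    have : 0 < n / 2 := by omega
    exact_mod_cast this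
  have hapos : 0 < a := by
    rw [ha]
    have : 0 < n / 2 + n % 2 := by omega
    exact_mod_cast this
  have hpos : 0 < a ^ k / k.factorial + b ^ k / k.factorial := by positivity
  have h3 := h2.div_const (a ^ k / k.factorial + b ^ k / k.factorial)
  rw [div_self hpos.ne'] at h3
  refine h3.congr fun m => ?_
  rw [twistNumber_weaving hn (by omega : 3 ≤ m + 3)]
  have h4 : (m + 3 : ℝ) ≠ 0 := by positivity
  have h5 : (k.factorial : ℝ) ≠ 0 := by positivity
  have h6 : a ^ k + b ^ k ≠ 0 := by positivity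
  push_cast
  field_simp
  simp only [Nat.cast_natAbs, Int.cast_abs]

end Pool.Agent.MP_592c03_gt
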