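import Pool.Agent.Lib_MP_592c03_gt.Glue
import Pool.Agent.Lib_MP_592c03_gt.Defs

/-!
# States of a closed braid diagram: how the number of loops changes
-/

set_option autoImplicit false

namespace Pool.Agent.MP_592c03_gt

/-- the equivalence relation generated by the edges in `A` -/
def gen {P E : Type*} (src tgt : E → P) (A : Set E) : Setoid P :=
  Relation.EqvGen.setoid (fun p q => ∃ e ∈ A, src e = p ∧ tgt e = q)

theorem gen_edge {P E : Type*} (src tgt : E → P) (A : Set E) {e : E} (he : e ∈ A) :
    gen src tgt A (src e) (tgt e) := Relation.EqvGen.rel _ _ ⟨e, he, rfl, rfl⟩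

theorem gen_le {P E : Type*} (src tgt : E → P) (A : Set E) (S : Setoid P)
    (h : ∀ e ∈ A, S (src e) (tgt e)) {x y : P} (hxy : gen src tgt A x y) : S x y := by
  have hxy' : Relation.EqvGen (fun p q => ∃ e ∈ A, src e = p ∧ tgt e = q) x y := hxy
  induction hxy' with
  | rel x y hr => obtain ⟨e, he, rfl, rfl⟩ := hr; exact h e he
  | refl x => exact S.refl x
  | symm x y _ ih => exact S.symm (ih (by assumption))
  | trans x y z _ _ ih1 ih2 => exact S.trans (ih1 (by assumption)) (ih2 (by assumption))

theorem gen_insert {P E : Type*} (src tgt : E → P) (A : Set E) (e : E) :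
    gen src tgt (insert e A) = glue (gen src tgt A) (src e) (tgt e) := by
  ext x y
  constructor
  · intro h
    refine gen_le src tgt _ _ ?_ h
    rintro f (rfl | hf)
    · exact glue_self _ _ _
    · exact le_glue _ _ _ (gen_edge src tgt A hf)
  · have hle : ∀ {x y}, gen src tgt A x y → gen src tgt (insert e A) x y := by
      intro x y h
      exact gen_le src tgt _ _ (fun f hf => gen_edge src tgt _ (Or.inr hf)) h
    have he : gen src tgt (insert e A) (src e) (tgt e) := gen_edge src tgt _ (Or.inl rfl)
    rintro (h | ⟨h1, h2⟩ | ⟨h1, h2⟩)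
    · exact hle h
    · exact (gen src tgt (insert e A)).trans (hle h1)
        ((gen src tgt (insert e A)).trans he (hle h2))
    · exact (gen src tgt (insert e A)).trans (hle h1)
        ((gen src tgt (insert e A)).trans ((gen src tgt (insert e A)).symm he) (hle h2))

theorem gen_congr {P E : Type*} (src tgt src' tgt' : E → P) (A : Set E)
    (h : ∀ e ∈ A, src e = src' e ∧ tgt e = tgt' e) : gen src tgt A = gen src' tgt' A := by
  ext x y
  constructor
  · refine fun hxy => gen_le src tgt _ _ (fun e he => ?_) hxy
    rw [(h e he).1, (h e he).2]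
    exact gen_edge _ _ _ he
  · refine fun hxy => gen_le src' tgt' _ _ (fun e he => ?_) hxy
    rw [← (h e he).1, ← (h e he).2]
    exact gen_edge _ _ _ he

variable {n L : ℕ} (w : BraidWord n L)

/-- points -/
abbrev Pt (n L : ℕ) : Type := Fin (L + 1) × Fin (n + 1)

/-- edges of a smoothed diagram -/
abbrev Edge (n L : ℕ) : Type := Fin (n + 1) ⊕ (Fin L × Fin (n + 1))

/-- first end point of an edge -/
def src (h : State L) : Edge n L → Pt n L
  | Sum.inl x => (Fin.last L, x)
  | Sum.inr (s, x) => if h s = true ∧ x = (w s).1.succ then (s.succ, (w s).1.castSucc)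
      else (s.castSucc, x)

/-- second end point of an edge -/
def tgt (h : State L) : Edge n L → Pt n L
  | Sum.inl x => (0, x)
  | Sum.inr (s, x) => if h s = true ∧ x = (w s).1.castSucc then (s.castSucc, (w s).1.succ)
      else (s.succ, x)

theorem castSucc_ne_succ' (i : Fin n) : i.castSucc ≠ i.succ := by
  intro h
  have := congrArg Fin.val h
  simp at this

theorem conn_iff (h : State L) (p q : Pt n L) :
    Conn w h p q ↔ ∃ e, src w h e = p ∧ tgt w h e = q := by
  constructor
  · rintro (x | ⟨s, x, hx⟩ | ⟨s, hs⟩ | ⟨s, hs⟩)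
    · exact ⟨Sum.inl x, rfl, rfl⟩
    · refine ⟨Sum.inr (s, x), ?_, ?_⟩
      · simp only [src]
        rw [if_neg]
        rintro ⟨h1, h2⟩
        rcases hx with hx | hx
        · simp [hx] at h1
        · exact hx.2 h2
      · simp only [tgt]
        rw [if_neg]
        rintro ⟨h1, h2⟩
        rcases hx with hx | hx
        · simp [hx] at h1
        · exact hx.1 h2
    · refine ⟨Sum.inr (s, (w s).1.castSucc), ?_, ?_⟩
      · simp only [src]
        rw [if_neg]
        rintro ⟨h1, h2⟩
        exact castSucc_ne_succ' _ h2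
      · simp [tgt, hs]
    · refine ⟨Sum.inr (s, (w s).1.succ), ?_, ?_⟩
      · simp [src, hs]
      · simp only [tgt]
        rw [if_neg]
        rintro ⟨h1, h2⟩
        exact castSucc_ne_succ' _ h2.symm
  · rintro ⟨x | ⟨s, x⟩, rfl, rfl⟩
    · exact Conn.closure x
    · by_cases hs : h s = true
      · by_cases h1 : x = (w s).1.succ
        · have h2 : ¬ (x = (w s).1.castSucc) := fun h3 => castSucc_ne_succ' _ (h3.symm.trans h1)
          simp only [src, tgt, hs, h1, true_and, if_true]
          rw [if_neg (fun h3 => castSucc_ne_succ' _ h3.symm)]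
          exact Conn.top s hs
        · by_cases h2 : x = (w s).1.castSucc
          · simp only [src, tgt, hs, h2, true_and, if_true]
            rw [if_neg (castSucc_ne_succ' _)]
            exact Conn.bottom s hs
          · simp only [src, tgt, hs, h1, h2, and_false, if_false]
            exact Conn.up s x (Or.inr ⟨h2, h1⟩)
      · have hs' : h s = false := by simpa using hs
        simp only [src, tgt, hs', false_and, if_false, Bool.false_eq_true]
        exact Conn.up s x (Or.inl hs')

/-- the equivalence relation of a state -/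
def stateSetoid (h : State L) : Setoid (Pt n L) := gen (src w h) (tgt w h) Set.univ

theorem loops_eq_cls (h : State L) : loops w h = cls (stateSetoid w h) := by
  unfold loops cls
  refine Nat.card_congr ?_
  refine Equiv.ofBijective (Quot.lift (fun p => Quotient.mk (stateSetoid w h) p) ?_) ⟨?_, ?_⟩
  · intro p q hpq
    obtain ⟨e, rfl, rfl⟩ := (conn_iff w h p q).1 hpq
    exact Quotient.sound (gen_edge _ _ _ (Set.mem_univ e))
  · intro a b
    induction a using Quot.ind with | _ p
    induction b using Quot.ind with | _ q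
    intro hab
    have h1 : stateSetoid w h p q := Quotient.exact hab
    apply Quot.eqvGen_sound
    refine gen_le (src w h) (tgt w h) Set.univ (Relation.EqvGen.setoid (Conn w h)) ?_ h1
    intro e _
    exact Relation.EqvGen.rel _ _ ((conn_iff w h _ _).2 ⟨e, rfl, rfl⟩)
  · intro q
    induction q using Quotient.ind with | _ p
    exact ⟨Quot.mk _ p, rfl⟩

theorem sum_split {M : Type*} [AddCommMonoid M] (i : Fin n) (f : Fin (n + 1) → M) :
    ∑ x, f x = (f i.castSucc + f i.succ) +
      ∑ x ∈ (Finset.univ.erase i.castSucc).erase i.succ, f x := by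
  have hne : i.succ ≠ i.castSucc := (castSucc_ne_succ' _).symm
  rw [← Finset.add_sum_erase _ _ (Finset.mem_univ i.castSucc),
    ← Finset.add_sum_erase _ _ (Finset.mem_erase.2 ⟨hne, Finset.mem_univ i.succ⟩), add_assoc]

/-- every point has degree two -/
theorem degree_two {M : Type*} [AddCommMonoid M] (h : State L) (φ : Pt n L → M) :
    ∑ e, (φ (src w h e) + φ (tgt w h e)) = ∑ p, φ p + ∑ p, φ p := by
  have key : ∀ s : Fin L, ∑ x, (φ (src w h (Sum.inr (s, x))) + φ (tgt w h (Sum.inr (s, x)))) =
      ∑ x, φ (s.castSucc, x) + ∑ x, φ (s.succ, x) := by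
    intro s
    rw [← Finset.sum_add_distrib]
    by_cases hs : h s = true
    · have hne : (w s).1.succ ≠ (w s).1.castSucc := (castSucc_ne_succ' _).symm
      rw [sum_split (w s).1, sum_split (w s).1]
      congr 1
      · simp only [src, tgt, hs, true_and, if_true, hne, hne.symm, if_false]
        abel
      · refine Finset.sum_congr rfl fun x hx => ?_
        rw [Finset.mem_erase, Finset.mem_erase] at hx
        simp only [src, tgt, hx.1, hx.2.1, and_false, if_false]
    · simp [src, tgt, hs]
  have h1 : ∑ p : Pt n L, φ p =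
      ∑ x, φ (0, x) + ∑ s : Fin L, ∑ x, φ (s.succ, x) := by
    rw [Fintype.sum_prod_type]; exact Fin.sum_univ_succ _
  have h2 : ∑ p : Pt n L, φ p =
      ∑ s : Fin L, ∑ x, φ (s.castSucc, x) + ∑ x, φ (Fin.last L, x) := by
    rw [Fintype.sum_prod_type]; exact Fin.sum_univ_castSucc _
  rw [Fintype.sum_sum_type, Fintype.sum_prod_type]
  simp only [key]
  nth_rewrite 1 [h1]
  rw [h2]
  simp only [Finset.sum_add_distrib, src, tgt]
  abel

/-- the two edges at the letter `s` -/
def edgeA (s : Fin L) : Edge n L := Sum.inr (s, (w s).1.castSucc)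

/-- the two edges at the letter `s` -/
def edgeB (s : Fin L) : Edge n L := Sum.inr (s, (w s).1.succ)

theorem edgeA_ne_edgeB (s : Fin L) : edgeA w s ≠ edgeB w s := by
  simp [edgeA, edgeB, castSucc_ne_succ']

/-- the equivalence relation of a state without the two edges at the letter `s` -/
def restSetoid (h : State L) (s : Fin L) : Setoid (Pt n L) :=
  gen (src w h) (tgt w h) {e | e ≠ edgeA w s ∧ e ≠ edgeB w s}

theorem stateSetoid_eq (h : State L) (s : Fin L) :
    stateSetoid w h = glue (glue (restSetoid w h s) (src w h (edgeB w s)) (tgt w h (edgeB w s)))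
      (src w h (edgeA w s)) (tgt w h (edgeA w s)) := by
  have : (Set.univ : Set (Edge n L)) =
      insert (edgeA w s) (insert (edgeB w s) {e | e ≠ edgeA w s ∧ e ≠ edgeB w s}) := by
    ext e
    simp only [Set.mem_univ, Set.mem_insert_iff, Set.mem_ofPred_eq, true_iff]
    tauto
  rw [stateSetoid, this, gen_insert, gen_insert]
  rfl

theorem restSetoid_congr (h h' : State L) (s : Fin L) (hh : ∀ s', s' ≠ s → h s' = h' s') :
    restSetoid w h s = restSetoid w h' s := by
  refine gen_congr _ _ _ _ _ ?_
  rintro (x | ⟨s', x⟩) ⟨h1, h2⟩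
  · exact ⟨rfl, rfl⟩
  · by_cases hs : s' = s
    · subst hs
      have h1' : x ≠ (w s').1.castSucc := fun h' => h1 (by simp [edgeA, h'])
      have h2' : x ≠ (w s').1.succ := fun h' => h2 (by simp [edgeB, h'])
      simp [src, tgt, h1', h2']
    · simp [src, tgt, hh s' hs]

/-- flip the smoothing of the letter `s` -/
def flip (h : State L) (s : Fin L) : State L := Function.update h s (!h s)

theorem flip_same (h : State L) (s : Fin L) : flip h s s = !h s := by simp [flip]

theorem flip_of_ne (h : State L) {s s' : Fin L} (hs : s' ≠ s) : flip h s s' = h s' := by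
  simp [flip, hs]

theorem flip_edges (h : State L) (s : Fin L) :
    src w (flip h s) (edgeA w s) = src w h (edgeA w s) ∧
    tgt w (flip h s) (edgeA w s) = src w h (edgeB w s) ∧
    src w (flip h s) (edgeB w s) = tgt w h (edgeA w s) ∧
    tgt w (flip h s) (edgeB w s) = tgt w h (edgeB w s) := by
  have hne : (w s).1.succ ≠ (w s).1.castSucc := (castSucc_ne_succ' _).symm
  cases hs : h s <;> simp [edgeA, edgeB, src, tgt, flip_same, hs, hne, hne.symm]

theorem stateSetoid_flip (h : State L) (s : Fin L) :
    stateSetoid w (flip h s) =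
      glue (glue (restSetoid w h s) (tgt w h (edgeA w s)) (tgt w h (edgeB w s)))
        (src w h (edgeA w s)) (src w h (edgeB w s)) := by
  obtain ⟨h1, h2, h3, h4⟩ := flip_edges w h s
  rw [stateSetoid_eq w (flip h s) s, h1, h2, h3, h4,
    restSetoid_congr w (flip h s) h s (fun s' hs' => flip_of_ne h hs')]

theorem cls_flip_le (h : State L) (s : Fin L) :
    cls (stateSetoid w (flip h s)) ≤ cls (stateSetoid w h) + 1 := by
  rw [stateSetoid_flip, stateSetoid_eq w h s]
  have := cls_switch_le (restSetoid w h s) (tgt w h (edgeB w s)) (tgt w h (edgeA w s))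
    (src w h (edgeB w s)) (src w h (edgeA w s))
  rw [glue_comm _ (tgt w h (edgeB w s)) (tgt w h (edgeA w s)),
    glue_comm _ (tgt w h (edgeB w s)) (src w h (edgeB w s)),
    glue_comm _ (tgt w h (edgeA w s)) (src w h (edgeA w s)),
    glue_comm _ (src w h (edgeB w s)) (src w h (edgeA w s))] at this
  exact this

theorem flip_flip (h : State L) (s : Fin L) : flip (flip h s) s = h := by
  funext s'
  by_cases hs : s' = s
  · subst hs; simp [flip]
  · simp [flip, hs]

theorem cls_le_flip (h : State L) (s : Fin L) :
    cls (stateSetoid w h) ≤ cls (stateSetoid w (flip h s)) + 1 := by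
  have := cls_flip_le w (flip h s) s
  rwa [flip_flip] at this

theorem cls_merge (h : State L) (s : Fin L)
    (hsep : ¬ stateSetoid w h (src w h (edgeA w s)) (src w h (edgeB w s))) :
    cls (stateSetoid w (flip h s)) + 1 = cls (stateSetoid w h) := by
  have H : ∀ φ : Pt n L → ZMod 2, ∑ e, (φ (src w h e) + φ (tgt w h e)) = 0 := by
    intro φ
    rw [degree_two]
    exact CharTwo.add_self_eq_zero _
  have hle : ∀ {x y}, restSetoid w h s x y → stateSetoid w h x y := by
    intro x y hxy
    rw [stateSetoid_eq w h s]
    exact le_glue _ _ _ (le_glue _ _ _ hxy)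
  have hA : stateSetoid w h (src w h (edgeA w s)) (tgt w h (edgeA w s)) :=
    gen_edge _ _ _ (Set.mem_univ _)
  have hB : stateSetoid w h (src w h (edgeB w s)) (tgt w h (edgeB w s)) :=
    gen_edge _ _ _ (Set.mem_univ _)
  have h1 : restSetoid w h s (src w h (edgeA w s)) (tgt w h (edgeA w s)) := by
    refine parity_argument (src w h) (tgt w h) H (restSetoid w h s) (edgeA w s) (edgeB w s)
      (edgeA_ne_edgeB w s) (fun e h1 h2 => gen_edge _ _ _ ⟨h1, h2⟩) (fun h' => hsep (hle h'))
      (fun h' => hsep ((stateSetoid w h).trans (hle h') ((stateSetoid w h).symm hB)))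
  have h2 : restSetoid w h s (src w h (edgeB w s)) (tgt w h (edgeB w s)) := by
    refine parity_argument (src w h) (tgt w h) H (restSetoid w h s) (edgeB w s) (edgeA w s)
      (edgeA_ne_edgeB w s).symm (fun e h1 h2 => gen_edge _ _ _ ⟨h2, h1⟩)
      (fun h' => hsep ((stateSetoid w h).symm (hle h')))
      (fun h' => hsep ((stateSetoid w h).trans hA ((stateSetoid w h).symm (hle h'))))
  have e1 : stateSetoid w h = restSetoid w h s := by
    rw [stateSetoid_eq w h s, glue_eq_of_rel _ h2, glue_eq_of_rel _ h1]
  have h3 : ¬ restSetoid w h s (tgt w h (edgeA w s)) (tgt w h (edgeB w s)) := by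
    intro h'
    exact hsep (hle ((restSetoid w h s).trans h1
      ((restSetoid w h s).trans h' ((restSetoid w h s).symm h2))))
  have e2 : stateSetoid w (flip h s) =
      glue (restSetoid w h s) (tgt w h (edgeA w s)) (tgt w h (edgeB w s)) := by
    rw [stateSetoid_flip]
    apply glue_eq_of_rel
    exact Or.inr (Or.inl ⟨h1, (restSetoid w h s).symm h2⟩)
  rw [e2, cls_glue_add_one _ h3, e1]

end Pool.Agent.MP_592c03_gt
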