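import Mathlib

/-!
# Forests in the Tait graph
-/

set_option autoImplicit false

namespace Pool.Agent.MP_592c03_gt

open Finset

section

variable {E V : Type*} [DecidableEq E] (c : Finset E → ℕ) (u v : E → V)

/-- adding edges with private ends -/
theorem add_private
    (M : ∀ (B : Finset E) (e : E) (W : Set V), e ∉ B → (∀ f ∈ B, (u f ∈ W ↔ v f ∈ W)) →
      ¬ (u e ∈ W ↔ v e ∈ W) → c (insert e B) + 1 = c B)
    (S1 : ∀ e, u e ≠ v e) (B G : Finset E) (hBG : Disjoint B G)
    (h : ∀ g ∈ G, ∃ y, (u g = y ∨ v g = y) ∧ ∀ f ∈ B ∪ G, f ≠ g → ¬ (u f = y ∨ v f = y)) :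
    c (B ∪ G) + G.card = c B := by
  induction G using Finset.induction_on with
  | empty => simp
  | insert g G hg ih =>
    rw [Finset.disjoint_insert_right] at hBG
    have ih' := ih hBG.2 (by
      intro g' hg'
      obtain ⟨y, h1, h2⟩ := h g' (Finset.mem_insert_of_mem hg')
      refine ⟨y, h1, fun f hf hne => h2 f ?_ hne⟩
      rw [Finset.union_insert]
      exact Finset.mem_insert_of_mem hf)
    obtain ⟨y, h1, h2⟩ := h g (Finset.mem_insert_self g G)
    have hg' : g ∉ B ∪ G := by simp [hBG.1, hg]
    have h3 : ∀ f ∈ B ∪ G, ¬ (u f = y ∨ v f = y) := by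
      intro f hf
      refine h2 f ?_ (fun h => hg' (h ▸ hf))
      rw [Finset.union_insert]
      exact Finset.mem_insert_of_mem hf
    have h4 := M (B ∪ G) g {y} hg' (by
      intro f hf
      have := h3 f hf
      simp only [Set.mem_singleton_iff]
      tauto) (by
      simp only [Set.mem_singleton_iff]
      intro h5
      rcases h1 with h1 | h1
      · exact S1 g (h1.trans (h5.1 h1).symm)
      · exact S1 g ((h5.2 h1).trans h1.symm))
    rw [Finset.card_insert_of_notMem hg, Finset.union_insert]
    omega

theorem tait_merge (hub : V → Prop) (near1 near : E → E → Prop)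
    (M : ∀ (B : Finset E) (e : E) (W : Set V), e ∉ B → (∀ f ∈ B, (u f ∈ W ↔ v f ∈ W)) →
      ¬ (u e ∈ W ↔ v e ∈ W) → c (insert e B) + 1 = c B)
    (S1 : ∀ e, u e ≠ v e)
    (S2 : ∀ e f, e ≠ f → ¬ ((u e = u f ∨ u e = v f) ∧ (v e = u f ∨ v e = v f)))
    (S3 : ∀ e, ∃ y, ¬ hub y ∧ (u e = y ∨ v e = y))
    (S4 : ∀ e f y, ¬ hub y → (u e = y ∨ v e = y) → (u f = y ∨ v f = y) → near1 e f)
    (N1 : ∀ e f, near1 e f → near e f) (N2 : ∀ e f g, near1 e f → near1 e g → near f g)
    (F : Finset E) (hF : ∀ e ∈ F, ∀ f ∈ F, e ≠ f → ¬ near e f) (e : E) (he : e ∉ F) :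
    c (insert e F) + F.card + 1 = c ∅ := by
  by_cases hcase : ∀ f ∈ F, ∀ y, ¬ hub y → (u e = y ∨ v e = y) → ¬ (u f = y ∨ v f = y)
  · have h1 := add_private c u v M S1 ∅ (insert e F) (Finset.disjoint_empty_left _) (by
      intro g hg
      rw [Finset.mem_insert] at hg
      rcases hg with rfl | hg
      · obtain ⟨y, hy1, hy2⟩ := S3 g
        refine ⟨y, hy2, fun f hf hne => ?_⟩
        rw [Finset.empty_union, Finset.mem_insert] at hf
        rcases hf with rfl | hf
        · exact absurd rfl hne
        · exact hcase f hf y hy1 hy2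
      · obtain ⟨y, hy1, hy2⟩ := S3 g
        refine ⟨y, hy2, fun f hf hne => ?_⟩
        rw [Finset.empty_union, Finset.mem_insert] at hf
        rcases hf with rfl | hf
        · exact fun h => hcase g hg y hy1 h hy2
        · exact fun h => hF f hf g hg hne (N1 _ _ (S4 f g y hy1 h hy2)))
    rw [Finset.empty_union, Finset.card_insert_of_notMem he] at h1
    omega
  · push Not at hcase
    obtain ⟨f, hf, y, hy1, hy2, hy3⟩ := hcase
    have hef : near1 e f := S4 e f y hy1 hy2 hy3
    have hne : e ≠ f := fun h => he (h ▸ hf)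
    have h1 := M ∅ f {u f} (Finset.notMem_empty f) (by simp) (by
      simp only [Set.mem_singleton_iff, true_iff]
      exact fun h => S1 f h.symm)
    have h2 := M {f} e {u f, v f} (by simpa using hne) (by simp) (by
      simp only [Set.mem_insert_iff, Set.mem_singleton_iff]
      intro h
      have hs2 := S2 e f hne
      have h3 : (u e = u f ∨ u e = v f) ∨ (v e = u f ∨ v e = v f) := by
        rcases hy2 with h | h <;> rcases hy3 with h' | h'
        · exact Or.inl (Or.inl (h.trans h'.symm))
        · exact Or.inl (Or.inr (h.trans h'.symm))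
        · exact Or.inr (Or.inl (h.trans h'.symm))
        · exact Or.inr (Or.inr (h.trans h'.symm))
      tauto)
    have h3 := add_private c u v M S1 (insert e {f}) (F.erase f) (by
      rw [Finset.disjoint_insert_left]
      refine ⟨fun h => he (Finset.mem_of_mem_erase h), ?_⟩
      rw [Finset.disjoint_singleton_left]
      exact Finset.notMem_erase _ _) (by
      intro g hg
      rw [Finset.mem_erase] at hg
      obtain ⟨z, hz1, hz2⟩ := S3 g
      refine ⟨z, hz2, fun f' hf' hne' => ?_⟩
      rw [Finset.mem_union, Finset.mem_insert, Finset.mem_singleton, Finset.mem_erase] at hf'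
      rcases hf' with (rfl | rfl) | hf'
      · intro h
        exact hF f hf g hg.2 hg.1.symm (N2 f' f g hef (S4 f' g z hz1 h hz2))
      · intro h
        exact hF f' hf g hg.2 hg.1.symm (N1 _ _ (S4 f' g z hz1 h hz2))
      · intro h
        exact hF f' hf'.2 g hg.2 hne' (N1 _ _ (S4 f' g z hz1 h hz2)))
    have h4 : insert e {f} ∪ F.erase f = insert e F := by
      rw [Finset.insert_union]
      congr 1
      ext x
      rw [Finset.mem_union, Finset.mem_singleton, Finset.mem_erase]
      constructor
      · rintro (rfl | h)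
        · exact hf
        · exact h.2
      · intro h
        by_cases hx : x = f
        · exact Or.inl hx
        · exact Or.inr ⟨hx, h⟩
    rw [h4, Finset.card_erase_of_mem hf] at h3
    have h5 : 0 < F.card := Finset.card_pos.2 ⟨f, hf⟩
    have h6 : insert f (∅ : Finset E) = {f} := rfl
    rw [h6] at h1
    omega

end

end Pool.Agent.MP_592c03_gt
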