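import Pool.Agent.Lib_MP_592c03_gt.States
import Pool.Agent.Lib_MP_592c03_gt.Tait
import Pool.Agent.Lib_MP_592c03_gt.Count

/-!
# The faces of the weaving diagram
-/

set_option autoImplicit false

namespace Pool.Agent.MP_592c03_gt

open Finset

/-- the column of colour `η` next to the strand `x` -/
def col (η x : ℕ) : ℕ := if x % 2 = η then x else x + 1

/-- the number of crossings of the column `C` below the slice `t` -/
def cnt (n t C : ℕ) : ℕ := (t + (n - C)) / n

theorem cnt_low {n a i C : ℕ} (hi : i < n) (hC : C ≤ i) :
    cnt n (a * n + i) C = a + 1 := by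
  have h1 : a * n + i + (n - C) = n * (a + 1) + (i - C) := by
    have : n * (a + 1) = a * n + n := by ring
    rw [this]; omega
  rw [cnt, h1, Nat.mul_add_div (by omega), Nat.div_eq_of_lt (by omega), add_zero]

theorem cnt_high {n a i C : ℕ} (hi : i < C) (hC : C ≤ n) :
    cnt n (a * n + i) C = a := by
  have h1 : a * n + i + (n - C) = n * a + (i + n - C) := by
    have : n * a = a * n := by ring
    rw [this]; omega
  rw [cnt, h1, Nat.mul_add_div (by omega), Nat.div_eq_of_lt (by omega), add_zero]

theorem cnt_low' {n a i C : ℕ} (hi : i < n) (hC1 : 1 ≤ C) (hC : C ≤ i + 1) :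
    cnt n (a * n + i + 1) C = a + 1 := by
  have h1 : a * n + i + 1 + (n - C) = n * (a + 1) + (i + 1 - C) := by
    have : n * (a + 1) = a * n + n := by ring
    rw [this]; omega
  rw [cnt, h1, Nat.mul_add_div (by omega), Nat.div_eq_of_lt (by omega), add_zero]

theorem cnt_high' {n a i C : ℕ} (hi : i + 1 < C) (hC : C ≤ n) :
    cnt n (a * n + i + 1) C = a := by
  have h1 : a * n + i + 1 + (n - C) = n * a + (i + 1 + n - C) := by
    have : n * a = a * n := by ring
    rw [this]; omega
  rw [cnt, h1, Nat.mul_add_div (by omega), Nat.div_eq_of_lt (by omega), add_zero]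

section

variable (n m η : ℕ)

/-- the face of colour `η` next to a point, by strand and slice -/
def faceN (t x : ℕ) : ZMod m × ℕ :=
  (if col η x = 0 ∨ col η x = n + 1 then 0 else (cnt n t (col η x) : ZMod m), col η x)

/-- the face of colour `η` next to a point -/
def face (p : Pt n (m * n)) : ZMod m × ℕ := faceN n m η p.1 p.2

theorem faceN_congr (t t' x : ℕ) (h : col η x ≠ 0 → col η x ≠ n + 1 →
    (cnt n t (col η x) : ZMod m) = cnt n t' (col η x)) : faceN n m η t x = faceN n m η t' x := by
  unfold faceN
  by_cases hC : col η x = 0 ∨ col η x = n + 1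
  · rw [if_pos hC, if_pos hC]
  · rw [if_neg hC, if_neg hC]
    rw [not_or] at hC
    rw [h hC.1 hC.2]

/-- the reference state -/
def ref : State (m * n) := fun s => decide (((s : ℕ) % n + 1) % 2 = η)

/-- the state obtained from the reference state by flipping the letters in `B` -/
def st (B : Finset (Fin (m * n))) : State (m * n) := fun s => xor (ref n m η s) (decide (s ∈ B))

theorem st_insert (B : Finset (Fin (m * n))) (e : Fin (m * n)) (he : e ∉ B) :
    st n m η (insert e B) = flip (st n m η B) e := by
  funext s
  by_cases hs : s = e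
  · subst hs
    simp [st, flip, he]
  · simp [st, flip, hs]

theorem src_congr {n L : ℕ} (w : BraidWord n L) (h h' : State L) (s : Fin L) (x : Fin (n + 1))
    (hs : h s = h' s) : src w h (Sum.inr (s, x)) = src w h' (Sum.inr (s, x)) ∧
      tgt w h (Sum.inr (s, x)) = tgt w h' (Sum.inr (s, x)) := by
  simp [src, tgt, hs]

theorem weaving_castSucc (s : Fin (m * n)) :
    (((weaving n m s).1.castSucc : Fin (n + 1)) : ℕ) = (s : ℕ) % n := by
  simp [weaving]

theorem weaving_succ (s : Fin (m * n)) :
    (((weaving n m s).1.succ : Fin (n + 1)) : ℕ) = (s : ℕ) % n + 1 := by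
  simp [weaving]

/-- first face at a letter -/
def u (s : Fin (m * n)) : ZMod m × ℕ := face n m η (src (weaving n m) (ref n m η) (edgeA (weaving n m) s))

/-- second face at a letter -/
def v (s : Fin (m * n)) : ZMod m × ℕ := face n m η (src (weaving n m) (ref n m η) (edgeB (weaving n m) s))

theorem st_empty : st n m η ∅ = ref n m η := by
  funext s; simp [st]

variable {n m η} (hn : 2 ≤ n) (hm : 3 ≤ m) (hη : η < 2)

theorem pos_of_letter (s : Fin (m * n)) : 0 < n := by
  rcases Nat.eq_zero_or_pos n with h | h
  · exfalso
    have := s.2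
    simp [h] at this
  · exact h

theorem letter_eq (s : Fin (m * n)) : (s : ℕ) = (s : ℕ) / n * n + (s : ℕ) % n :=
  (Nat.div_add_mod' _ _).symm

theorem letter_mod_lt (s : Fin (m * n)) : (s : ℕ) % n < n := Nat.mod_lt _ (pos_of_letter s)

include hη in
theorem face_ref_edge (e : Edge n (m * n)) (hn : 1 ≤ n) :
    face n m η (src (weaving n m) (ref n m η) e) = face n m η (tgt (weaving n m) (ref n m η) e) := by
  rcases e with x | ⟨s, x⟩
  · have hx := x.2
    have key : faceN n m η (m * n) (x : ℕ) = faceN n m η 0 (x : ℕ) := by
      refine faceN_congr n m η _ _ _ fun hC0 hC1 => ?_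
      have : col η x ≤ (x : ℕ) + 1 := by rw [col]; split_ifs <;> omega
      have h1 : cnt n (m * n) (col η x) = m := by
        have := cnt_high (n := n) (a := m) (i := 0) (C := col η x) (by omega) (by omega)
        simpa using this
      have h2 : cnt n 0 (col η x) = 0 := by
        have := cnt_high (n := n) (a := 0) (i := 0) (C := col η x) (by omega) (by omega)
        simpa using this
      rw [h1, h2]
      simp
    exact key
  · have hs := letter_eq s
    have hi := letter_mod_lt s
    have hcs := weaving_castSucc n m s
    have hss := weaving_succ n m s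
    by_cases href : ref n m η s = true
    · have href' : ((s : ℕ) % n + 1) % 2 = η := by simpa [ref] using href
      have hcol1 : col η ((s : ℕ) % n) = (s : ℕ) % n + 1 := by
        rw [col, if_neg]; omega
      have hcol2 : col η ((s : ℕ) % n + 1) = (s : ℕ) % n + 1 := by
        rw [col, if_pos href']
      by_cases h1 : x = (weaving n m s).1.succ
      · have h2 : ¬ x = (weaving n m s).1.castSucc := fun h => castSucc_ne_succ' _ (h.symm.trans h1)
        simp only [src, tgt]
        rw [if_pos ⟨href, h1⟩, if_neg (fun h => h2 h.2)]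
        simp only [face, faceN, hcs, h1, hss, hcol1, hcol2]
      · by_cases h2 : x = (weaving n m s).1.castSucc
        · simp only [src, tgt]
          rw [if_neg (fun h => h1 h.2), if_pos ⟨href, h2⟩]
          simp only [face, faceN, h2, hcs, hss, hcol1, hcol2]
        · simp only [src, tgt]
          rw [if_neg (fun h => h1 h.2), if_neg (fun h => h2 h.2)]
          simp only [face, faceN, Fin.val_castSucc, Fin.val_succ]
          have hx1 : (x : ℕ) ≠ (s : ℕ) % n := fun h => h2 (Fin.ext (by rw [hcs, h]))
          have hx2 : (x : ℕ) ≠ (s : ℕ) % n + 1 := fun h => h1 (Fin.ext (by rw [hss, h]))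
          by_cases hC : col η x = 0 ∨ col η x = n + 1
          · rw [if_pos hC, if_pos hC]
          · rw [if_neg hC, if_neg hC]
            have hx := x.2
            have hcolx : col η x = (x : ℕ) ∨ col η x = (x : ℕ) + 1 := by
              rw [col]; split_ifs <;> simp
            rw [not_or] at hC
            have h3 : cnt n s (col η x) = cnt n (s + 1) (col η x) := by
              rw [hs]
              rcases lt_or_ge ((s : ℕ) % n + 1) (col η x) with h4 | h4
              · rw [cnt_high (by omega) (by omega), cnt_high' (by omega) (by omega)]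
              · rw [cnt_low (by omega) (by omega), cnt_low' (by omega) (by omega) (by omega)]
            rw [h3]
    · have href' : ((s : ℕ) % n + 1) % 2 ≠ η := by simpa [ref] using href
      simp only [src, tgt]
      rw [if_neg (fun h => href h.1), if_neg (fun h => href h.1)]
      simp only [face, faceN, Fin.val_castSucc, Fin.val_succ]
      by_cases hC : col η x = 0 ∨ col η x = n + 1
      · rw [if_pos hC, if_pos hC]
      · rw [if_neg hC, if_neg hC]
        have hx := x.2
        have hcolx : col η x % 2 = η ∧ (col η x = (x : ℕ) ∨ col η x = (x : ℕ) + 1) := by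
          rw [col]
          split_ifs with h
          · exact ⟨h, Or.inl rfl⟩
          · refine ⟨by omega, Or.inr rfl⟩
        rw [not_or] at hC
        have hne : col η x ≠ (s : ℕ) % n + 1 := by
          intro h; rw [h] at hcolx; exact href' hcolx.1
        have h3 : cnt n s (col η x) = cnt n (s + 1) (col η x) := by
          rw [hs]
          rcases lt_or_ge ((s : ℕ) % n + 1) (col η x) with h4 | h4
          · rw [cnt_high (by omega) (by omega), cnt_high' (by omega) (by omega)]
          · rw [cnt_low (by omega) (by omega), cnt_low' (by omega) (by omega) (by omega)]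
        rw [h3]

include hη in
theorem face_st_edge (B : Finset (Fin (m * n))) (W : Set (ZMod m × ℕ)) (hn : 1 ≤ n)
    (hW : ∀ s ∈ B, (u n m η s ∈ W ↔ v n m η s ∈ W)) (e : Edge n (m * n)) :
    face n m η (src (weaving n m) (st n m η B) e) ∈ W ↔
      face n m η (tgt (weaving n m) (st n m η B) e) ∈ W := by
  rcases e with x | ⟨s, x⟩
  · have := face_ref_edge (m := m) hη (Sum.inl x : Edge n (m * n)) hn
    have h1 : src (weaving n m) (st n m η B) (Sum.inl x) =
      src (weaving n m) (ref n m η) (Sum.inl x) := rfl
    have h2 : tgt (weaving n m) (st n m η B) (Sum.inl x) =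
      tgt (weaving n m) (ref n m η) (Sum.inl x) := rfl
    rw [h1, h2, this]
  · by_cases hs : s ∈ B
    · have hval : st n m η B s = flip (ref n m η) s s := by
        rw [flip_same]; simp [st, hs]
      have hc := src_congr (weaving n m) (st n m η B) (flip (ref n m η) s) s x hval
      rw [hc.1, hc.2]
      obtain ⟨h1, h2, h3, h4⟩ := flip_edges (weaving n m) (ref n m η) s
      have hA := face_ref_edge (m := m) hη (edgeA (weaving n m) s) hn
      have hB := face_ref_edge (m := m) hη (edgeB (weaving n m) s) hn
      by_cases hx1 : x = (weaving n m s).1.castSucc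
      · have : (Sum.inr (s, x) : Edge n (m * n)) = edgeA (weaving n m) s := by rw [edgeA, hx1]
        rw [this, h1, h2]
        exact hW s hs
      · by_cases hx2 : x = (weaving n m s).1.succ
        · have : (Sum.inr (s, x) : Edge n (m * n)) = edgeB (weaving n m) s := by rw [edgeB, hx2]
          rw [this, h3, h4, ← hA, ← hB]
          exact hW s hs
        · have h5 := face_ref_edge (m := m) hη (Sum.inr (s, x) : Edge n (m * n)) hn
          have h6 : src (weaving n m) (flip (ref n m η) s) (Sum.inr (s, x)) =
              src (weaving n m) (ref n m η) (Sum.inr (s, x)) := by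
            simp [src, hx2]
          have h7 : tgt (weaving n m) (flip (ref n m η) s) (Sum.inr (s, x)) =
              tgt (weaving n m) (ref n m η) (Sum.inr (s, x)) := by
            simp [tgt, hx1]
          rw [h6, h7, h5]
    · have hval : st n m η B s = ref n m η s := by simp [st, hs]
      have hc := src_congr (weaving n m) (st n m η B) (ref n m η) s x hval
      rw [hc.1, hc.2, face_ref_edge (m := m) hη (Sum.inr (s, x) : Edge n (m * n)) hn]

/-- the number of loops after flipping `B` -/
noncomputable def cw (n m η : ℕ) (B : Finset (Fin (m * n))) : ℕ := loops (weaving n m) (st n m η B)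

include hη in
theorem cw_merge (hn : 1 ≤ n) (B : Finset (Fin (m * n))) (e : Fin (m * n)) (W : Set (ZMod m × ℕ))
    (he : e ∉ B) (hW : ∀ s ∈ B, (u n m η s ∈ W ↔ v n m η s ∈ W))
    (heW : ¬ (u n m η e ∈ W ↔ v n m η e ∈ W)) : cw n m η (insert e B) + 1 = cw n m η B := by
  rw [cw, cw, loops_eq_cls, loops_eq_cls, st_insert n m η B e he]
  apply cls_merge
  intro h
  apply heW
  let S : Setoid (Pt n (m * n)) :=
    { r := fun p q => (face n m η p ∈ W ↔ face n m η q ∈ W)
      iseqv := ⟨fun _ => Iff.rfl, fun h => h.symm, fun h h' => h.trans h'⟩ }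
  have h1 : S _ _ := gen_le _ _ _ S (fun e _ => face_st_edge hη B W hn hW e) h
  have hval : st n m η B e = ref n m η e := by simp [st, he]
  have hA := src_congr (weaving n m) (st n m η B) (ref n m η) e
    (weaving n m e).1.castSucc hval
  have hB := src_congr (weaving n m) (st n m η B) (ref n m η) e
    (weaving n m e).1.succ hval
  have hA' : src (weaving n m) (st n m η B) (edgeA (weaving n m) e) =
      src (weaving n m) (ref n m η) (edgeA (weaving n m) e) := hA.1
  have hB' : src (weaving n m) (st n m η B) (edgeB (weaving n m) e) =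
      src (weaving n m) (ref n m η) (edgeB (weaving n m) e) := hB.1
  rw [hA', hB'] at h1
  exact h1

theorem u_eq (s : Fin (m * n)) : u n m η s =
    if (s : ℕ) % n % 2 = η then
      (if (s : ℕ) % n = 0 then 0 else (((s : ℕ) / n + 1 : ℕ) : ZMod m), (s : ℕ) % n)
    else ((((s : ℕ) / n : ℕ) : ZMod m), (s : ℕ) % n + 1) := by
  have hi := letter_mod_lt s
  have hcs := weaving_castSucc n m s
  have h1 : src (weaving n m) (ref n m η) (edgeA (weaving n m) s) =
      (s.castSucc, (weaving n m s).1.castSucc) := by
    simp [edgeA, src, castSucc_ne_succ']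
  rw [u, h1]
  simp only [face, faceN, hcs, Fin.val_castSucc]
  by_cases h : (s : ℕ) % n % 2 = η
  · rw [if_pos h]
    have hcol : col η ((s : ℕ) % n) = (s : ℕ) % n := by rw [col, if_pos h]
    rw [hcol]
    by_cases h0 : (s : ℕ) % n = 0
    · rw [if_pos (Or.inl h0), if_pos h0]
    · rw [if_neg (by omega), if_neg h0]
      have h3 : cnt n (s : ℕ) ((s : ℕ) % n) = (s : ℕ) / n + 1 := by
        conv_lhs => rw [letter_eq s]
        rw [Nat.mul_add_mod_self_right, Nat.mod_mod]
        exact cnt_low hi le_rfl
      rw [h3]
  · rw [if_neg h]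
    have hcol : col η ((s : ℕ) % n) = (s : ℕ) % n + 1 := by rw [col, if_neg h]
    rw [hcol, if_neg (by omega)]
    have h3 : cnt n (s : ℕ) ((s : ℕ) % n + 1) = (s : ℕ) / n := by
      conv_lhs => rw [letter_eq s]
      rw [Nat.mul_add_mod_self_right, Nat.mod_mod]
      exact cnt_high (Nat.lt_succ_self _) hi
    rw [h3]

theorem v_eq (hη : η < 2) (s : Fin (m * n)) : v n m η s =
    if (s : ℕ) % n % 2 = η then
      (if (s : ℕ) % n + 1 = n then 0 else (((s : ℕ) / n : ℕ) : ZMod m), (s : ℕ) % n + 2)
    else ((((s : ℕ) / n + 1 : ℕ) : ZMod m), (s : ℕ) % n + 1) := by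
  have hi := letter_mod_lt s
  have hcs := weaving_castSucc n m s
  have hss := weaving_succ n m s
  by_cases h : (s : ℕ) % n % 2 = η
  · have href : ref n m η s = false := by
      simp only [ref, decide_eq_false_iff_not]; omega
    have h1 : src (weaving n m) (ref n m η) (edgeB (weaving n m) s) =
        (s.castSucc, (weaving n m s).1.succ) := by
      simp [edgeB, src, href]
    rw [v, h1]
    simp only [face, faceN, hss, Fin.val_castSucc]
    rw [if_pos h]
    have hcol : col η ((s : ℕ) % n + 1) = (s : ℕ) % n + 2 := by rw [col, if_neg (by omega)]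
    rw [hcol]
    by_cases h0 : (s : ℕ) % n + 1 = n
    · rw [if_pos (Or.inr (by omega)), if_pos h0]
    · rw [if_neg (by omega), if_neg h0]
      have h3 : cnt n (s : ℕ) ((s : ℕ) % n + 2) = (s : ℕ) / n := by
        conv_lhs => rw [letter_eq s]
        rw [Nat.mul_add_mod_self_right, Nat.mod_mod]
        exact cnt_high (by omega) (by omega)
      rw [h3]
  · have href : ref n m η s = true := by
      simp only [ref, decide_eq_true_eq]; omega
    have h1 : src (weaving n m) (ref n m η) (edgeB (weaving n m) s) =
        (s.succ, (weaving n m s).1.castSucc) := by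
      simp [edgeB, src, href]
    rw [v, h1]
    simp only [face, faceN, hcs, Fin.val_succ]
    rw [if_neg h]
    have hcol : col η ((s : ℕ) % n) = (s : ℕ) % n + 1 := by rw [col, if_neg h]
    rw [hcol, if_neg (by omega)]
    have h3 : cnt n ((s : ℕ) + 1) ((s : ℕ) % n + 1) = (s : ℕ) / n + 1 := by
      conv_lhs => rw [letter_eq s]
      rw [Nat.mul_add_mod_self_right, Nat.mod_mod]
      exact cnt_low' hi (by omega) le_rfl
    rw [h3]

end

end Pool.Agent.MP_592c03_gt
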