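import Pool.Agent.Lib_MP_592c03_gt.Weaving

/-!
# The weaving diagram satisfies the hypotheses of the counting argument
-/

set_option autoImplicit false

namespace Pool.Agent.MP_592c03_gt

open Finset

section

variable {n m η : ℕ}

theorem block_lt (s : Fin (m * n)) : (s : ℕ) / n < m :=
  Nat.div_lt_of_lt_mul (lt_of_lt_of_eq s.2 (mul_comm _ _))

theorem block_inj {a b : ℕ} (ha : a < m) (hb : b < m) (h : (a : ZMod m) = b) : a = b := by
  rw [ZMod.natCast_eq_natCast_iff', Nat.mod_eq_of_lt ha, Nat.mod_eq_of_lt hb] at h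
  exact h

theorem letter_ext (s s' : Fin (m * n)) (h1 : (s : ℕ) / n = (s' : ℕ) / n)
    (h2 : (s : ℕ) % n = (s' : ℕ) % n) : s = s' := by
  apply Fin.ext
  rw [letter_eq s, letter_eq s', h1, h2]

/-- the blocks of two letters differ by at most `D` -/
def nearD (D : ℤ) (s s' : Fin (m * n)) : Prop :=
  ∃ d : ℤ, |d| ≤ D ∧ (((s : ℕ) / n : ℕ) : ZMod m) = (((s' : ℕ) / n : ℕ) : ZMod m) + d

theorem nearD_refl (s : Fin (m * n)) : nearD 2 s s := ⟨0, by simp, by simp⟩

theorem nearD_symm (s s' : Fin (m * n)) (h : nearD 2 s s') : nearD 2 s' s := by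
  obtain ⟨d, hd, h⟩ := h
  refine ⟨-d, by rwa [abs_neg], ?_⟩
  rw [h]; push_cast; ring

theorem near1_near (s s' : Fin (m * n)) (h : nearD 1 s s') : nearD 2 s s' := by
  obtain ⟨d, hd, h⟩ := h
  exact ⟨d, hd.trans (by norm_num), h⟩

theorem near1_near1 (e f g : Fin (m * n)) (h : nearD 1 e f) (h' : nearD 1 e g) : nearD 2 f g := by
  obtain ⟨d, hd, h⟩ := h
  obtain ⟨d', hd', h'⟩ := h'
  refine ⟨d' - d, (abs_sub _ _).trans (by linarith), ?_⟩
  have : (((f : ℕ) / n : ℕ) : ZMod m) = (((g : ℕ) / n : ℕ) : ZMod m) + d' - d := by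
    rw [← h', h]; ring
  rw [this]; push_cast; ring

theorem card_nearD (f : Fin (m * n)) : Nat.card {e : Fin (m * n) // nearD 2 e f} ≤ 5 * n := by
  classical
  have h5 : Nat.card ((Finset.Icc (-2 : ℤ) 2) × Fin n) = 5 * n := by
    rw [Nat.card_prod, Nat.card_eq_fintype_card, Nat.card_eq_fintype_card, Fintype.card_coe,
      Fintype.card_fin]
    rfl
  rw [← h5]
  refine Nat.card_le_card_of_injective
    (fun e => (⟨e.2.choose, by
      have := e.2.choose_spec.1
      rw [abs_le] at this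
      rw [Finset.mem_Icc]; exact this⟩, ⟨(e.1 : ℕ) % n, letter_mod_lt e.1⟩)) ?_
  intro e e' h
  simp only [Prod.mk.injEq, Subtype.mk.injEq, Fin.mk.injEq] at h
  apply Subtype.ext
  refine letter_ext _ _ ?_ h.2
  refine block_inj (block_lt _) (block_lt _) ?_
  rw [e.2.choose_spec.2, e'.2.choose_spec.2, h.1]

/-- a face which is not one of the two outer faces touches letters in two blocks only -/
theorem touch_block (hη : η < 2) (e : Fin (m * n)) (y : ZMod m × ℕ)
    (hy : ¬ (y.2 = 0 ∨ y.2 = n + 1)) (h : u n m η e = y ∨ v n m η e = y) :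
    ∃ δ : ℤ, 0 ≤ δ ∧ δ ≤ 1 ∧ y.1 = (((e : ℕ) / n : ℕ) : ZMod m) + δ := by
  have hi := letter_mod_lt e
  rw [u_eq, v_eq hη] at h
  by_cases hp : (e : ℕ) % n % 2 = η
  · rw [if_pos hp, if_pos hp] at h
    rcases h with h | h
    · rw [← h] at hy ⊢
      simp only at hy ⊢
      rw [if_neg (fun h' => hy (Or.inl h'))]
      exact ⟨1, by norm_num, by norm_num, by push_cast; ring⟩
    · rw [← h] at hy ⊢
      simp only at hy ⊢
      rw [if_neg (fun h' => hy (Or.inr (by omega)))]
      exact ⟨0, by norm_num, by norm_num, by push_cast; ring⟩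
  · rw [if_neg hp, if_neg hp] at h
    rcases h with h | h
    · rw [← h]
      exact ⟨0, by norm_num, by norm_num, by push_cast; ring⟩
    · rw [← h]
      exact ⟨1, by norm_num, by norm_num, by push_cast; ring⟩

theorem S4 (hη : η < 2) (e f : Fin (m * n)) (y : ZMod m × ℕ)
    (hy : ¬ (y.2 = 0 ∨ y.2 = n + 1)) (h : u n m η e = y ∨ v n m η e = y)
    (h' : u n m η f = y ∨ v n m η f = y) : nearD 1 e f := by
  obtain ⟨δ, h1, h2, h3⟩ := touch_block hη e y hy h
  obtain ⟨δ', h1', h2', h3'⟩ := touch_block hη f y hy h'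
  refine ⟨δ' - δ, ?_, ?_⟩
  · rw [abs_le]; constructor <;> linarith
  · have : (((e : ℕ) / n : ℕ) : ZMod m) = (((f : ℕ) / n : ℕ) : ZMod m) + δ' - δ := by
      rw [← h3', h3]; ring
    rw [this]; push_cast; ring

theorem S3 (hn : 2 ≤ n) (hη : η < 2) (e : Fin (m * n)) :
    ∃ y : ZMod m × ℕ, ¬ (y.2 = 0 ∨ y.2 = n + 1) ∧ (u n m η e = y ∨ v n m η e = y) := by
  have hi := letter_mod_lt e
  by_cases hp : (e : ℕ) % n % 2 = η
  · by_cases h0 : (e : ℕ) % n = 0
    · refine ⟨v n m η e, ?_, Or.inr rfl⟩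
      rw [v_eq hη, if_pos hp]
      simp only
      omega
    · refine ⟨u n m η e, ?_, Or.inl rfl⟩
      rw [u_eq, if_pos hp]
      simp only
      omega
  · refine ⟨u n m η e, ?_, Or.inl rfl⟩
    rw [u_eq, if_neg hp]
    simp only
    omega

theorem one_ne_zero_zmod (hm : 3 ≤ m) : ((1 : ℕ) : ZMod m) ≠ ((0 : ℕ) : ZMod m) := by
  intro h
  have := block_inj (m := m) (by omega) (by omega) h
  omega

theorem two_ne_zero_zmod (hm : 3 ≤ m) : ((2 : ℕ) : ZMod m) ≠ ((0 : ℕ) : ZMod m) := by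
  intro h
  have := block_inj (m := m) (by omega) (by omega) h
  omega

theorem S1 (hm : 3 ≤ m) (hη : η < 2) (e : Fin (m * n)) : u n m η e ≠ v n m η e := by
  intro h
  rw [u_eq, v_eq hη] at h
  by_cases hp : (e : ℕ) % n % 2 = η
  · rw [if_pos hp, if_pos hp, Prod.mk.injEq] at h
    omega
  · rw [if_neg hp, if_neg hp, Prod.mk.injEq] at h
    apply one_ne_zero_zmod hm
    have := h.1
    push_cast at this ⊢
    linear_combination -this

theorem S2 (hn : 2 ≤ n) (hm : 3 ≤ m) (hη : η < 2) (e f : Fin (m * n)) (hef : e ≠ f) :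
    ¬ ((u n m η e = u n m η f ∨ u n m η e = v n m η f) ∧
      (v n m η e = u n m η f ∨ v n m η e = v n m η f)) := by
  rintro ⟨h1, h2⟩
  have hS := S1 (n := n) hm hη e
  have hS' := S1 (n := n) hm hη f
  have hi := letter_mod_lt e
  have hi' := letter_mod_lt f
  have hcase : (u n m η e = u n m η f ∧ v n m η e = v n m η f) ∨
      (u n m η e = v n m η f ∧ v n m η e = u n m η f) := by
    rcases h1 with h1 | h1 <;> rcases h2 with h2 | h2
    · exact absurd (h1.trans h2.symm) hS
    · exact Or.inl ⟨h1, h2⟩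
    · exact Or.inr ⟨h1, h2⟩
    · exact absurd (h1.trans h2.symm) hS
  clear h1 h2 hS hS'
  rw [u_eq, u_eq, v_eq hη, v_eq hη] at hcase
  by_cases hp : (e : ℕ) % n % 2 = η <;> by_cases hp' : (f : ℕ) % n % 2 = η
  · rw [if_pos hp, if_pos hp', if_pos hp, if_pos hp'] at hcase
    simp only [Prod.mk.injEq] at hcase
    rcases hcase with ⟨⟨h1, h2⟩, h3, h4⟩ | ⟨⟨h1, h2⟩, h3, h4⟩
    · apply hef
      refine letter_ext _ _ ?_ h2
      refine block_inj (block_lt _) (block_lt _) ?_
      by_cases h0 : (e : ℕ) % n = 0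
      · rw [if_neg (by omega), if_neg (by omega)] at h3
        exact h3
      · rw [if_neg h0, if_neg (by omega)] at h1
        push_cast at h1
        exact add_right_cancel h1
    · omega
  · rw [if_pos hp, if_neg hp', if_pos hp, if_neg hp'] at hcase
    simp only [Prod.mk.injEq] at hcase
    omega
  · rw [if_neg hp, if_pos hp', if_neg hp, if_pos hp'] at hcase
    simp only [Prod.mk.injEq] at hcase
    omega
  · rw [if_neg hp, if_neg hp', if_neg hp, if_neg hp'] at hcase
    simp only [Prod.mk.injEq] at hcase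
    rcases hcase with ⟨⟨h1, h2⟩, h3, h4⟩ | ⟨⟨h1, h2⟩, h3, h4⟩
    · apply hef
      exact letter_ext _ _ (block_inj (block_lt _) (block_lt _) h1) (by omega)
    · apply two_ne_zero_zmod hm
      push_cast at h1 h3 ⊢
      linear_combination h3 - h1

/-- the counting data of the weaving diagram -/
noncomputable def wdata (n m η : ℕ) (hn : 2 ≤ n) (hm : 3 ≤ m) (hη : η < 2) :
    Data (Fin (m * n)) where
  c := cw n m η
  near := nearD 2
  Q := 5 * n
  pos B := by
    rw [cw, loops_eq_cls]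
    exact cls_pos _
  lip B e he := by
    rw [cw, cw, loops_eq_cls, loops_eq_cls, st_insert n m η B e he]
    exact ⟨cls_flip_le _ _ _, cls_le_flip _ _ _⟩
  near_refl := nearD_refl
  near_symm := nearD_symm
  card_near := card_nearD
  merge F hF e he := tait_merge (cw n m η) (u n m η) (v n m η)
    (fun y => y.2 = 0 ∨ y.2 = n + 1) (nearD 1) (nearD 2)
    (fun B e W he hW heW => cw_merge hη (by omega) B e W he hW heW)
    (fun e => S1 hm hη e) (fun e f hef => S2 hn hm hη e f hef) (fun e => S3 hn hη e)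
    (fun e f y hy h h' => S4 hη e f y hy h h') near1_near near1_near1 F hF e he

end

end Pool.Agent.MP_592c03_gt
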